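import Pool.Agent.N702.CP.Stm

/-!
# A bound for the finite quotients of `SL_n(ℤ)` (Schur's theorem)
-/

set_option autoImplicit false

namespace Pool.Agent.N702.CP

open scoped commutatorElement

namespace BND

lemma commutator_central {Q : Type} [Group Q] (x y z w : Q) (hz : z ∈ Subgroup.center Q)
    (hw : w ∈ Subgroup.center Q) : ⁅x * z, y * w⁆ = ⁅x, y⁆ := by
  rw [Subgroup.mem_center_iff] at hz hw
  have h1 : x * z * (y * w) = x * y * (z * w) := by
    rw [mul_assoc, ← mul_assoc z y w, ← hz y]
    simp only [mul_assoc]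
  have h2 : y * w * (x * z) = y * x * (z * w) := by
    rw [mul_assoc, ← mul_assoc w x z, ← hw x, mul_assoc x w z, hz w]
    simp only [mul_assoc]
  have h3 : ∀ a b : Q, ⁅a, b⁆ = a * b * (b * a)⁻¹ := by
    intro a b
    rw [commutatorElement_def]
    group
  rw [h3, h3, h1, h2]
  group

lemma card_commutatorSet_le (Q : Type) [Group Q] [Finite Q] :
    Nat.card (commutatorSet Q) ≤ (Subgroup.center Q).index * (Subgroup.center Q).index := by
  have h : commutatorSet Q ⊆ Set.range
      (fun p : (Q ⧸ Subgroup.center Q) × (Q ⧸ Subgroup.center Q) => ⁅p.1.out, p.2.out⁆) := by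
    rintro g ⟨x, y, rfl⟩
    refine ⟨(QuotientGroup.mk x, QuotientGroup.mk y), ?_⟩
    obtain ⟨z, hz⟩ := QuotientGroup.mk_out_eq_mul (Subgroup.center Q) x
    obtain ⟨w, hw⟩ := QuotientGroup.mk_out_eq_mul (Subgroup.center Q) y
    simp only [hz, hw]
    exact commutator_central x y z w z.2 w.2
  calc Nat.card (commutatorSet Q) ≤ Nat.card (Set.range
      (fun p : (Q ⧸ Subgroup.center Q) × (Q ⧸ Subgroup.center Q) => ⁅p.1.out, p.2.out⁆)) :=
        Nat.card_mono (Set.toFinite _) h
    _ ≤ Nat.card ((Q ⧸ Subgroup.center Q) × (Q ⧸ Subgroup.center Q)) :=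
        Finite.card_range_le _
    _ = _ := by rw [Nat.card_prod]; rfl

lemma el_comm {n : ℕ} (i j l : Fin n) (hij : i ≠ j) (hil : i ≠ l) (hlj : l ≠ j) (k : ℤ) :
    el i j hij k = ⁅el i l hil k, el l j hlj 1⁆ := by
  have h : el i l hil k * el l j hlj 1 = el i j hij k * (el l j hlj 1 * el i l hil k) := by
    apply Subtype.ext
    change Matrix.transvection i l k * Matrix.transvection l j (1 : ℤ) =
      Matrix.transvection i j k * (Matrix.transvection l j (1 : ℤ) * Matrix.transvection i l k)
    unfold Matrix.transvection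
    have a1 : Matrix.single i l k * Matrix.single l j (1 : ℤ) = Matrix.single i j k := by
      rw [Matrix.single_mul_single_same, mul_one]
    have a2 : Matrix.single l j (1 : ℤ) * Matrix.single i l k = 0 := by
      rw [Matrix.single_mul_single_of_ne _ _ _ _ hij.symm]
    have a3 : Matrix.single i j k * Matrix.single i l k = 0 := by
      rw [Matrix.single_mul_single_of_ne _ _ _ _ hij.symm]
    have a4 : Matrix.single i j k * Matrix.single l j (1 : ℤ) = 0 := by
      rw [Matrix.single_mul_single_of_ne _ _ _ _ hlj.symm]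
    simp only [mul_add, add_mul, mul_one, one_mul, a1, a2, a3, a4, add_zero]
    abel
  rw [commutatorElement_def]
  rw [eq_mul_inv_iff_mul_eq, eq_mul_inv_iff_mul_eq, h, mul_assoc]

lemma third {n : ℕ} (hn : 3 ≤ n) (i j : Fin n) : ∃ l : Fin n, i ≠ l ∧ l ≠ j := by
  have h : ∃ l : Fin n, l ∉ ({i, j} : Finset (Fin n)) := by
    by_contra hcon
    push Not at hcon
    have h1 : (Finset.univ : Finset (Fin n)) ⊆ {i, j} := fun x _ => hcon x
    have h2 := Finset.card_le_card h1
    rw [Finset.card_univ, Fintype.card_fin] at h2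
    have h3 := Finset.card_le_two (a := i) (b := j)
    omega
  obtain ⟨l, hl⟩ := h
  simp only [Finset.mem_insert, Finset.mem_singleton, not_or] at hl
  exact ⟨l, fun h => hl.1 h.symm, hl.2⟩

lemma perfect (hG : S_GEN) {n : ℕ} (hn : 3 ≤ n) (Q : Type) [Group Q] (f : SLZ n →* Q)
    (hf : Function.Surjective f) : commutator Q = ⊤ := by
  rw [eq_top_iff]
  intro q _
  obtain ⟨g, rfl⟩ := hf q
  have h : Subgroup.closure {g : SLZ n | ∃ (i j : Fin n) (h : i ≠ j) (k : ℤ), g = el i j h k} ≤
      (commutator Q).comap f := by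
    rw [Subgroup.closure_le]
    rintro _ ⟨i, j, hij, k, rfl⟩
    obtain ⟨l, hil, hlj⟩ := third hn i j
    rw [SetLike.mem_coe, Subgroup.mem_comap, el_comm i j l hij hil hlj k, map_commutatorElement]
    exact Subgroup.commutator_mem_commutator (Subgroup.mem_top _) (Subgroup.mem_top _)
  rw [hG n] at h
  exact h (Subgroup.mem_top g)

end BND

open BND in
theorem t_BND (hG : S_GEN) (hC : S_CEN) : S_BND := by
  intro n hn M hM
  have : NeZero M := ⟨by omega⟩
  have : Finite (Matrix.SpecialLinearGroup (Fin n) (ZMod M)) := by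
    unfold Matrix.SpecialLinearGroup
    have : Finite (Matrix (Fin n) (Fin n) (ZMod M)) := by
      unfold Matrix
      infer_instance
    infer_instance
  set m := Nat.card (Matrix.SpecialLinearGroup (Fin n) (ZMod M)) with hm
  have hm1 : 1 ≤ m := Nat.card_pos
  refine ⟨m ^ (m * (m * m) + 1), ?_⟩
  intro Q _ _ f hf hel
  -- the index of the center
  have hker : (Matrix.SpecialLinearGroup.map (n := Fin n) (Int.castRingHom (ZMod M))).ker ≤
      (Subgroup.center Q).comap f := by
    intro g hg
    rw [Subgroup.mem_comap, Subgroup.mem_center_iff]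
    intro q
    obtain ⟨x, rfl⟩ := hf q
    refine (hC n hn Q f (M : ℤ) hel g ?_ x).symm
    intro i j
    rw [MonoidHom.mem_ker] at hg
    have h1 := congrArg (fun A : Matrix.SpecialLinearGroup (Fin n) (ZMod M) =>
      (A : Matrix (Fin n) (Fin n) (ZMod M)) i j) hg
    simp only [Matrix.SpecialLinearGroup.map_apply_coe, RingHom.mapMatrix_apply,
      Matrix.map_apply, Matrix.SpecialLinearGroup.coe_one, eq_intCast] at h1
    rw [← ZMod.intCast_zmod_eq_zero_iff_dvd, Int.cast_sub, h1, sub_eq_zero]
    rw [Matrix.one_apply, Matrix.one_apply]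
    split_ifs <;> simp
  have hidx : (Subgroup.center Q).index ≤ m := by
    rw [← Subgroup.index_comap_of_surjective (Subgroup.center Q) hf]
    have h1 := Subgroup.index_dvd_of_le hker
    rw [Subgroup.index_ker] at h1
    have h2 : 0 < Nat.card (Matrix.SpecialLinearGroup.map (n := Fin n)
        (Int.castRingHom (ZMod M))).range := Nat.card_pos
    exact (Nat.le_of_dvd h2 h1).trans (Subgroup.card_le_card_group _)
  have h1 : Nat.card Q = Nat.card (commutator Q) := by
    rw [perfect hG hn Q f hf, Subgroup.card_top]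
  have hpos : 0 < (Subgroup.center Q).index := Nat.pos_of_ne_zero Subgroup.index_ne_zero_of_finite
  have h2 : Nat.card (commutator Q) ≤ (Subgroup.center Q).index ^
      ((Subgroup.center Q).index * Nat.card (commutatorSet Q) + 1) :=
    Nat.le_of_dvd (pow_pos hpos _) (Subgroup.card_commutator_dvd_index_center_pow Q)
  rw [h1]
  refine h2.trans ?_
  calc (Subgroup.center Q).index ^ ((Subgroup.center Q).index * Nat.card (commutatorSet Q) + 1)
      ≤ m ^ ((Subgroup.center Q).index * Nat.card (commutatorSet Q) + 1) :=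
        Nat.pow_le_pow_left hidx _
    _ ≤ m ^ (m * (m * m) + 1) := by
        refine Nat.pow_le_pow_right hm1 (Nat.add_le_add_right ?_ 1)
        refine Nat.mul_le_mul hidx ((card_commutatorSet_le Q).trans ?_)
        exact Nat.mul_le_mul hidx hidx

end Pool.Agent.N702.CP
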