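import Pool.Agent.N702.CP.Stm

set_option autoImplicit false

/-!
# Project CP (helper702), leaf CEN (helper736): the congruence subgroup is central modulo the normal
closure of the `M`-th powers of the elementary matrices
-/

namespace Pool.Agent.N702.CP

namespace CENaux

open Matrix

variable {n : ℕ}

lemma coe_mul' (x y : SLZ n) : ((x * y : SLZ n) : Matrix (Fin n) (Fin n) ℤ) =
    (x : Matrix (Fin n) (Fin n) ℤ) * (y : Matrix (Fin n) (Fin n) ℤ) :=
  Matrix.SpecialLinearGroup.coe_mul x y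

lemma coe_el (i j : Fin n) (h : i ≠ j) (k : ℤ) :
    ((el i j h k : SLZ n) : Matrix (Fin n) (Fin n) ℤ) = transvection i j k := rfl

lemma el_mul_apply (i j : Fin n) (h : i ≠ j) (k : ℤ) (A : Matrix (Fin n) (Fin n) ℤ) (a b : Fin n) :
    (((el i j h k : SLZ n) : Matrix (Fin n) (Fin n) ℤ) * A) a b =
      A a b + if a = i then k * A j b else 0 := by
  rw [coe_el]
  by_cases ha : a = i
  · subst ha
    rw [transvection_mul_apply_same, if_pos rfl]
  · rw [transvection_mul_apply_of_ne _ _ _ _ ha, if_neg ha, add_zero]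

lemma mul_el_apply (i j : Fin n) (h : i ≠ j) (k : ℤ) (A : Matrix (Fin n) (Fin n) ℤ) (a b : Fin n) :
    (A * ((el i j h k : SLZ n) : Matrix (Fin n) (Fin n) ℤ)) a b =
      A a b + if b = j then k * A a i else 0 := by
  rw [coe_el]
  by_cases hb : b = j
  · subst hb
    rw [mul_transvection_apply_same, if_pos rfl]
  · rw [mul_transvection_apply_of_ne _ _ _ _ hb, if_neg hb, add_zero]

lemma el_add (i j : Fin n) (h : i ≠ j) (k l : ℤ) : el i j h (k + l) = el i j h k * el i j h l := by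
  apply Subtype.ext
  rw [coe_mul', coe_el, coe_el, coe_el, transvection_mul_transvection_same _ _ h]

/-- the additive family as a homomorphism -/
noncomputable def elHom (i j : Fin n) (h : i ≠ j) : Multiplicative ℤ →* SLZ n where
  toFun k := el i j h (Multiplicative.toAdd k)
  map_one' := by
    apply Subtype.ext
    rw [coe_el]
    simp
  map_mul' k l := el_add i j h _ _

lemma el_inv (i j : Fin n) (h : i ≠ j) (k : ℤ) : (el i j h k)⁻¹ = el i j h (-k) :=
  (map_inv (elHom i j h) (Multiplicative.ofAdd k)).symm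

lemma el_zpow (i j : Fin n) (h : i ≠ j) (k c : ℤ) : el i j h (k * c) = (el i j h k) ^ c := by
  have h1 := map_zpow (elHom i j h) (Multiplicative.ofAdd k) c
  have h2 : (Multiplicative.ofAdd k) ^ c = Multiplicative.ofAdd (k * c) := by
    rw [← ofAdd_zsmul, smul_eq_mul, mul_comm]
  rw [h2] at h1
  exact h1

/-- the principal congruence subgroup -/
noncomputable def Gam (n : ℕ) (M : ℤ) : Subgroup (SLZ n) :=
  (Matrix.SpecialLinearGroup.map (n := Fin n) (Ideal.Quotient.mk (Ideal.span {M}))).ker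

lemma mem_Gam {M : ℤ} {x : SLZ n} : x ∈ Gam n M ↔
    ∀ i j : Fin n, M ∣ (x : Matrix (Fin n) (Fin n) ℤ) i j - (1 : Matrix (Fin n) (Fin n) ℤ) i j := by
  unfold Gam
  rw [MonoidHom.mem_ker]
  have h1 : ∀ i j : Fin n, (1 : Matrix (Fin n) (Fin n) (ℤ ⧸ Ideal.span {M})) i j =
      Ideal.Quotient.mk (Ideal.span {M}) ((1 : Matrix (Fin n) (Fin n) ℤ) i j) := by
    intro i j
    rw [Matrix.one_apply, Matrix.one_apply]
    split_ifs <;> simp
  constructor
  · intro h i j
    have h2 := congrArg (fun y : Matrix.SpecialLinearGroup (Fin n) (ℤ ⧸ Ideal.span {M}) =>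
      (y : Matrix (Fin n) (Fin n) (ℤ ⧸ Ideal.span {M})) i j) h
    have h3 : Ideal.Quotient.mk (Ideal.span {M}) ((x : Matrix (Fin n) (Fin n) ℤ) i j) =
        Ideal.Quotient.mk (Ideal.span {M}) ((1 : Matrix (Fin n) (Fin n) ℤ) i j) := by
      rw [← h1]
      exact h2
    rw [Ideal.Quotient.eq, Ideal.mem_span_singleton] at h3
    exact h3
  · intro h
    apply Subtype.ext
    ext i j
    show Ideal.Quotient.mk (Ideal.span {M}) ((x : Matrix (Fin n) (Fin n) ℤ) i j) =
      (1 : Matrix (Fin n) (Fin n) (ℤ ⧸ Ideal.span {M})) i j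
    rw [h1, Ideal.Quotient.eq, Ideal.mem_span_singleton]
    exact h i j

section
variable {Q : Type} [Group Q] (f : SLZ n →* Q) (M : ℤ)

/-- the normal subgroup used for the reductions -/
noncomputable def KK : Subgroup (SLZ n) := f.ker ⊓ Gam n M

instance : (KK f M).Normal := by
  unfold KK Gam
  infer_instance

variable {f M}

lemma el_mem (hf : ∀ (i j : Fin n) (h : i ≠ j), f (el i j h M) = 1) (i j : Fin n) (h : i ≠ j)
    {k : ℤ} (hk : M ∣ k) : el i j h k ∈ KK f M := by
  obtain ⟨c, rfl⟩ := hk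
  refine ⟨?_, ?_⟩
  · rw [el_zpow]
    exact Subgroup.zpow_mem _ ((MonoidHom.mem_ker).2 (hf i j h)) c
  · show el i j h (M * c) ∈ Gam n M
    rw [mem_Gam]
    intro a b
    have h1 := mul_el_apply i j h (M * c) 1 a b
    rw [one_mul] at h1
    rw [h1, add_sub_cancel_left]
    split_ifs
    · exact Dvd.dvd.mul_right (Dvd.intro _ rfl) _
    · exact dvd_zero _

/-- products of elementary matrices in one column, on the left -/
lemma Lprod (hf : ∀ (i j : Fin n) (h : i ≠ j), f (el i j h M) = 1) (r : Fin n) (w : Fin n → ℤ)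
    (S : Finset (Fin n)) : r ∉ S → (∀ j ∈ S, M ∣ w j) → ∃ U ∈ KK f M,
      ∀ (A : Matrix (Fin n) (Fin n) ℤ) (a b : Fin n),
        (((U : SLZ n) : Matrix (Fin n) (Fin n) ℤ) * A) a b =
          A a b + if a ∈ S then w a * A r b else 0 := by
  induction S using Finset.induction_on with
  | empty =>
    intro _ _
    exact ⟨1, Subgroup.one_mem _, fun A a b => by simp⟩
  | insert j S hj ih =>
    intro hr hw
    have hrj : j ≠ r := fun h => hr (by rw [h]; exact Finset.mem_insert_self _ _)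
    have hrS : r ∉ S := fun h => hr (Finset.mem_insert_of_mem h)
    obtain ⟨U, hU, hUA⟩ := ih hrS fun i hi => hw i (Finset.mem_insert_of_mem hi)
    refine ⟨el j r hrj (w j) * U, Subgroup.mul_mem _ (el_mem hf j r hrj
      (hw j (Finset.mem_insert_self _ _))) hU, fun A a b => ?_⟩
    rw [coe_mul', Matrix.mul_assoc, el_mul_apply, hUA, hUA, if_neg hrS, add_zero]
    by_cases ha : a = j
    · subst ha
      rw [if_neg hj, if_pos rfl, if_pos (Finset.mem_insert_self _ _)]
      ring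
    · rw [if_neg ha]
      by_cases haS : a ∈ S
      · rw [if_pos haS, if_pos (Finset.mem_insert_of_mem haS)]
        ring
      · rw [if_neg haS, if_neg (by
          intro h
          rcases Finset.mem_insert.1 h with h | h
          · exact ha h
          · exact haS h)]
        ring

/-- products of elementary matrices in one column, on the right -/
lemma Rprod (hf : ∀ (i j : Fin n) (h : i ≠ j), f (el i j h M) = 1) (p : Fin n) (v : Fin n → ℤ)
    (S : Finset (Fin n)) : p ∉ S → (∀ j ∈ S, M ∣ v j) → ∃ U ∈ KK f M,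
      ∀ (A : Matrix (Fin n) (Fin n) ℤ) (a b : Fin n),
        (A * ((U : SLZ n) : Matrix (Fin n) (Fin n) ℤ)) a b =
          A a b + if b = p then ∑ i ∈ S, A a i * v i else 0 := by
  induction S using Finset.induction_on with
  | empty =>
    intro _ _
    exact ⟨1, Subgroup.one_mem _, fun A a b => by simp⟩
  | insert j S hj ih =>
    intro hr hw
    have hrj : j ≠ p := fun h => hr (by rw [h]; exact Finset.mem_insert_self _ _)
    have hrS : p ∉ S := fun h => hr (Finset.mem_insert_of_mem h)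
    obtain ⟨U, hU, hUA⟩ := ih hrS fun i hi => hw i (Finset.mem_insert_of_mem hi)
    refine ⟨U * el j p hrj (v j), Subgroup.mul_mem _ hU (el_mem hf j p hrj
      (hw j (Finset.mem_insert_self _ _))), fun A a b => ?_⟩
    rw [coe_mul', ← Matrix.mul_assoc, mul_el_apply, hUA, hUA, if_neg hrj, add_zero]
    by_cases hb : b = p
    · rw [if_pos hb, if_pos hb, if_pos hb, Finset.sum_insert hj]
      ring
    · rw [if_neg hb, if_neg hb, if_neg hb]
      ring

/-- products of elementary matrices in one row, on the right -/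
lemma Rprod2 (hf : ∀ (i j : Fin n) (h : i ≠ j), f (el i j h M) = 1) (r : Fin n) (w : Fin n → ℤ)
    (S : Finset (Fin n)) : r ∉ S → (∀ j ∈ S, M ∣ w j) → ∃ U ∈ KK f M,
      ∀ (A : Matrix (Fin n) (Fin n) ℤ) (a b : Fin n),
        (A * ((U : SLZ n) : Matrix (Fin n) (Fin n) ℤ)) a b =
          A a b + if b ∈ S then w b * A a r else 0 := by
  induction S using Finset.induction_on with
  | empty =>
    intro _ _
    exact ⟨1, Subgroup.one_mem _, fun A a b => by simp⟩
  | insert j S hj ih =>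
    intro hr hw
    have hrj : r ≠ j := fun h => hr (by rw [h]; exact Finset.mem_insert_self _ _)
    have hrS : r ∉ S := fun h => hr (Finset.mem_insert_of_mem h)
    obtain ⟨U, hU, hUA⟩ := ih hrS fun i hi => hw i (Finset.mem_insert_of_mem hi)
    refine ⟨U * el r j hrj (w j), Subgroup.mul_mem _ hU (el_mem hf r j hrj
      (hw j (Finset.mem_insert_self _ _))), fun A a b => ?_⟩
    rw [coe_mul', ← Matrix.mul_assoc, mul_el_apply, hUA, hUA, if_neg hrS, add_zero]
    by_cases hb : b = j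
    · subst hb
      rw [if_neg hj, if_pos rfl, if_pos (Finset.mem_insert_self _ _)]
      ring
    · rw [if_neg hb]
      by_cases hbS : b ∈ S
      · rw [if_pos hbS, if_pos (Finset.mem_insert_of_mem hbS)]
        ring
      · rw [if_neg hbS, if_neg (by
          intro h
          rcases Finset.mem_insert.1 h with h | h
          · exact hb h
          · exact hbS h)]
        ring

end

/-- column operations on the columns `p`, `q` -/
def Op (p q : Fin n) (h : SLZ n) : Prop :=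
  (∀ (B : Matrix (Fin n) (Fin n) ℤ) (a b : Fin n), b ≠ p → b ≠ q →
    (B * (h : Matrix (Fin n) (Fin n) ℤ)) a b = B a b) ∧
  ∀ (B : Matrix (Fin n) (Fin n) ℤ) (a : Fin n) (m : ℤ), m ∣ B a p → m ∣ B a q →
    m ∣ (B * (h : Matrix (Fin n) (Fin n) ℤ)) a p ∧ m ∣ (B * (h : Matrix (Fin n) (Fin n) ℤ)) a q

lemma Op_one (p q : Fin n) : Op p q 1 := by
  refine ⟨fun B a b _ _ => by simp, fun B a m h1 h2 => by simpa using ⟨h1, h2⟩⟩

lemma Op_mul {p q : Fin n} {x y : SLZ n} (hx : Op p q x) (hy : Op p q y) : Op p q (x * y) := by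
  refine ⟨fun B a b h1 h2 => ?_, fun B a m h1 h2 => ?_⟩
  · rw [coe_mul', ← Matrix.mul_assoc, hy.1 _ a b h1 h2, hx.1 _ a b h1 h2]
  · rw [coe_mul', ← Matrix.mul_assoc]
    have h3 := hx.2 B a m h1 h2
    exact hy.2 _ a m h3.1 h3.2

lemma Op_el1 {p q : Fin n} (h : p ≠ q) (c : ℤ) : Op p q (el p q h c) := by
  refine ⟨fun B a b h1 h2 => ?_, fun B a m h1 h2 => ?_⟩
  · rw [mul_el_apply, if_neg h2, add_zero]
  · rw [mul_el_apply, mul_el_apply, if_neg h, if_pos rfl, add_zero]
    exact ⟨h1, dvd_add h2 (Dvd.dvd.mul_left h1 c)⟩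

lemma Op_el2 {p q : Fin n} (h : q ≠ p) (c : ℤ) : Op p q (el q p h c) := by
  refine ⟨fun B a b h1 h2 => ?_, fun B a m h1 h2 => ?_⟩
  · rw [mul_el_apply, if_neg h1, add_zero]
  · rw [mul_el_apply, mul_el_apply, if_neg h, if_pos rfl, add_zero]
    exact ⟨dvd_add h1 (Dvd.dvd.mul_left h2 c), h2⟩

/-- the Euclidean algorithm -/
lemma euclid {p q : Fin n} (hpq : p ≠ q) (r : Fin n) : ∀ (k : ℕ) (A : Matrix (Fin n) (Fin n) ℤ),
    (A r p).natAbs = k → ∃ h0 : SLZ n, Op p q h0 ∧ (A * (h0 : Matrix (Fin n) (Fin n) ℤ)) r p = 0 := by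
  intro k
  induction k using Nat.strong_induction_on with
  | _ k ih =>
    intro A hA
    by_cases h0 : A r p = 0
    · exact ⟨1, Op_one p q, by simpa using h0⟩
    · obtain ⟨c, hc⟩ : ∃ c, c = -(A r q / A r p) := ⟨_, rfl⟩
      obtain ⟨h1, hh1⟩ : ∃ h1 : SLZ n, h1 = el p q hpq c * el q p hpq.symm 1 *
          el p q hpq (-1) * el q p hpq.symm 1 := ⟨_, rfl⟩
      have hOp : Op p q h1 := by
        rw [hh1]
        exact Op_mul (Op_mul (Op_mul (Op_el1 hpq c) (Op_el2 hpq.symm 1)) (Op_el1 hpq (-1)))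
          (Op_el2 hpq.symm 1)
      have hval : (A * (h1 : Matrix (Fin n) (Fin n) ℤ)) r p = A r q % A r p := by
        rw [hh1]
        simp only [coe_mul', ← Matrix.mul_assoc]
        simp only [mul_el_apply, if_true, if_neg hpq, if_neg hpq.symm]
        rw [hc, Int.emod_def]
        ring
      have hlt : ((A * (h1 : Matrix (Fin n) (Fin n) ℤ)) r p).natAbs < k := by
        rw [hval, ← hA]
        have e1 := Int.emod_nonneg (A r q) h0
        have e2 := Int.emod_lt_abs (A r q) h0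
        rw [Int.abs_eq_natAbs] at e2
        omega
      obtain ⟨h2, hOp2, hz⟩ := ih _ hlt (A * (h1 : Matrix (Fin n) (Fin n) ℤ)) rfl
      refine ⟨h1 * h2, Op_mul hOp hOp2, ?_⟩
      rw [coe_mul', ← Matrix.mul_assoc]
      exact hz

section
variable {Q : Type} [Group Q] {f : SLZ n →* Q} {M : ℤ}

/-- the row `r` of a matrix of the congruence subgroup can be made trivial -/
lemma claim (hf : ∀ (i j : Fin n) (h : i ≠ j), f (el i j h M) = 1) {p q r : Fin n} (hpq : p ≠ q)
    (hpr : p ≠ r) (hqr : q ≠ r) {g : SLZ n} (hg : g ∈ Gam n M) : ∃ E ∈ KK f M, ∀ b,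
      ((g * E : SLZ n) : Matrix (Fin n) (Fin n) ℤ) r b = if b = r then 1 else 0 := by
  rw [mem_Gam] at hg
  obtain ⟨h0, hOp, hz⟩ := euclid hpq r _ (g : Matrix (Fin n) (Fin n) ℤ) rfl
  obtain ⟨A1, hA1⟩ : ∃ A1 : SLZ n, A1 = g * h0 := ⟨_, rfl⟩
  have hA1p : (A1 : Matrix (Fin n) (Fin n) ℤ) r p = 0 := by rw [hA1, coe_mul']; exact hz
  have hgd : ∀ l, l ≠ r → M ∣ (g : Matrix (Fin n) (Fin n) ℤ) r l := by
    intro l hl
    have := hg r l
    rwa [Matrix.one_apply_ne hl.symm, sub_zero] at this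
  have hA1d : ∀ l, l ≠ r → M ∣ (A1 : Matrix (Fin n) (Fin n) ℤ) r l := by
    intro l hl
    rw [hA1, coe_mul']
    have h2 := hOp.2 (g : Matrix (Fin n) (Fin n) ℤ) r M (hgd p hpr) (hgd q hqr)
    by_cases hlp : l = p
    · rw [hlp]; exact h2.1
    · by_cases hlq : l = q
      · rw [hlq]; exact h2.2
      · rw [hOp.1 _ r l hlp hlq]
        exact hgd l hl
  obtain ⟨b, hb⟩ : ∃ b, (A1 : Matrix (Fin n) (Fin n) ℤ) r r = 1 + M * b := by
    have h1 := hg r r
    rw [Matrix.one_apply_eq] at h1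
    obtain ⟨b, hb⟩ := h1
    refine ⟨b, ?_⟩
    rw [hA1, coe_mul', hOp.1 _ r r hpr.symm hqr.symm]
    linarith
  -- unimodularity
  have huni : ∑ l, (A1 : Matrix (Fin n) (Fin n) ℤ) r l *
      ((A1⁻¹ : SLZ n) : Matrix (Fin n) (Fin n) ℤ) l r = 1 := by
    have h1 : ((A1 * A1⁻¹ : SLZ n) : Matrix (Fin n) (Fin n) ℤ) r r = 1 := by
      rw [mul_inv_cancel]
      simp
    rw [coe_mul', Matrix.mul_apply] at h1
    exact h1
  obtain ⟨P, hP, hPA⟩ := Rprod (M := M) hf p
    (fun l => M * ((A1⁻¹ : SLZ n) : Matrix (Fin n) (Fin n) ℤ) l r) (Finset.univ.erase p)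
    (Finset.notMem_erase _ _) (fun _ _ => Dvd.intro _ rfl)
  obtain ⟨A2, hA2⟩ : ∃ A2 : SLZ n, A2 = A1 * P := ⟨_, rfl⟩
  have hA2p : (A2 : Matrix (Fin n) (Fin n) ℤ) r p = M := by
    rw [hA2, coe_mul', hPA, if_pos rfl, hA1p, zero_add]
    have h1 : ∑ i ∈ Finset.univ.erase p, (A1 : Matrix (Fin n) (Fin n) ℤ) r i *
        (M * ((A1⁻¹ : SLZ n) : Matrix (Fin n) (Fin n) ℤ) i r) =
        ∑ i, (A1 : Matrix (Fin n) (Fin n) ℤ) r i *
        (M * ((A1⁻¹ : SLZ n) : Matrix (Fin n) (Fin n) ℤ) i r) := by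
      rw [← Finset.add_sum_erase Finset.univ _ (Finset.mem_univ p), hA1p]
      simp
    rw [h1]
    calc _ = M * ∑ i, (A1 : Matrix (Fin n) (Fin n) ℤ) r i *
        ((A1⁻¹ : SLZ n) : Matrix (Fin n) (Fin n) ℤ) i r := by
          rw [Finset.mul_sum]
          exact Finset.sum_congr rfl fun i _ => by ring
      _ = M := by rw [huni, mul_one]
  have hA2l : ∀ l, l ≠ p → (A2 : Matrix (Fin n) (Fin n) ℤ) r l =
      (A1 : Matrix (Fin n) (Fin n) ℤ) r l := by
    intro l hl
    rw [hA2, coe_mul', hPA, if_neg hl, add_zero]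
  obtain ⟨A3, hA3⟩ : ∃ A3 : SLZ n, A3 = A2 * el p r hpr (-b) := ⟨_, rfl⟩
  have hA3r : (A3 : Matrix (Fin n) (Fin n) ℤ) r r = 1 := by
    rw [hA3, coe_mul', mul_el_apply, if_pos rfl, hA2l r hpr.symm, hb, hA2p]
    ring
  have hA3d : ∀ l, l ≠ r → M ∣ (A3 : Matrix (Fin n) (Fin n) ℤ) r l := by
    intro l hl
    rw [hA3, coe_mul', mul_el_apply, if_neg hl, add_zero]
    by_cases hlp : l = p
    · rw [hlp, hA2p]
    · rw [hA2l l hlp]
      exact hA1d l hl
  obtain ⟨R, hR, hRA⟩ := Rprod2 (M := M) hf r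
    (fun l => -((A3 : Matrix (Fin n) (Fin n) ℤ) r l)) (Finset.univ.erase r)
    (Finset.notMem_erase _ _)
    (fun j hj => (dvd_neg).2 (hA3d j (Finset.ne_of_mem_erase hj)))
  obtain ⟨A4, hA4⟩ : ∃ A4 : SLZ n, A4 = A3 * R := ⟨_, rfl⟩
  have hA4l : ∀ l, (A4 : Matrix (Fin n) (Fin n) ℤ) r l = if l = r then 1 else 0 := by
    intro l
    rw [hA4, coe_mul', hRA, hA3r]
    by_cases hl : l = r
    · rw [if_neg (by rw [hl]; exact Finset.notMem_erase _ _), if_pos hl, hl, hA3r, add_zero]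
    · rw [if_pos (Finset.mem_erase.2 ⟨hl, Finset.mem_univ _⟩), if_neg hl]
      ring
  obtain ⟨A5, hA5⟩ : ∃ A5 : SLZ n, A5 = A4 * el p r hpr b := ⟨_, rfl⟩
  have hA5l : ∀ l, (A5 : Matrix (Fin n) (Fin n) ℤ) r l = if l = r then 1 else 0 := by
    intro l
    rw [hA5, coe_mul', mul_el_apply, hA4l, hA4l, if_neg hpr]
    simp
  have hh0l : ∀ l, (h0 : Matrix (Fin n) (Fin n) ℤ) r l = if l = r then 1 else 0 := by
    intro l
    have e1 : (h0 : Matrix (Fin n) (Fin n) ℤ) =
        (1 : Matrix (Fin n) (Fin n) ℤ) * (h0 : Matrix (Fin n) (Fin n) ℤ) := (one_mul _).symm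
    have h2 := hOp.2 (1 : Matrix (Fin n) (Fin n) ℤ) r 0
      (by rw [Matrix.one_apply_ne hpr.symm]) (by rw [Matrix.one_apply_ne hqr.symm])
    rw [zero_dvd_iff, zero_dvd_iff] at h2
    by_cases hlp : l = p
    · rw [hlp, if_neg hpr, e1]; exact h2.1
    · by_cases hlq : l = q
      · rw [hlq, if_neg hqr, e1]; exact h2.2
      · rw [e1, hOp.1 _ r l hlp hlq, Matrix.one_apply]
        by_cases hl : l = r
        · rw [if_pos hl, if_pos hl.symm]
        · rw [if_neg hl, if_neg fun h => hl h.symm]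
  have hinvl : ∀ l, ((h0⁻¹ : SLZ n) : Matrix (Fin n) (Fin n) ℤ) r l = if l = r then 1 else 0 := by
    intro l
    have h1 : ((h0 * h0⁻¹ : SLZ n) : Matrix (Fin n) (Fin n) ℤ) r l =
        (1 : Matrix (Fin n) (Fin n) ℤ) r l := by
      rw [mul_inv_cancel]
      rfl
    rw [coe_mul', Matrix.mul_apply] at h1
    simp only [hh0l, ite_mul, one_mul, zero_mul, Finset.sum_ite_eq', Finset.mem_univ, if_true] at h1
    rw [h1, Matrix.one_apply]
    by_cases hl : l = r
    · rw [if_pos hl, if_pos hl.symm]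
    · rw [if_neg hl, if_neg fun h => hl h.symm]
  refine ⟨h0 * (P * (el p r hpr (-b) * R * (el p r hpr (-b))⁻¹)) * h0⁻¹, ?_, fun c => ?_⟩
  · exact Subgroup.Normal.conj_mem inferInstance _
      (Subgroup.mul_mem _ hP (Subgroup.Normal.conj_mem inferInstance _ hR _)) _
  · have e1 : g * (h0 * (P * (el p r hpr (-b) * R * (el p r hpr (-b))⁻¹)) * h0⁻¹) = A5 * h0⁻¹ := by
      rw [el_inv, neg_neg, hA5, hA4, hA3, hA2, hA1]
      group
    rw [e1, coe_mul', Matrix.mul_apply]
    simp only [hA5l, ite_mul, one_mul, zero_mul, Finset.sum_ite_eq', Finset.mem_univ, if_true]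
    exact hinvl c

/-- commutation with the elementary matrices -/
lemma comm_el (hf : ∀ (i j : Fin n) (h : i ≠ j), f (el i j h M) = 1) {p q r : Fin n} (hpq : p ≠ q)
    (hpr : p ≠ r) (hqr : q ≠ r) {g : SLZ n} (hg : g ∈ Gam n M) (i : Fin n) (hi : i ≠ r) (c : ℤ) :
    f g * f (el i r hi c) = f (el i r hi c) * f g := by
  obtain ⟨E, hE, hrow⟩ := claim hf hpq hpr hqr hg
  obtain ⟨g1, hg1⟩ : ∃ g1 : SLZ n, g1 = g * E := ⟨_, rfl⟩
  rw [← hg1] at hrow
  have hfg : f g1 = f g := by
    rw [hg1, map_mul, (MonoidHom.mem_ker).1 hE.1, mul_one]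
  have hg1G : g1 ∈ Gam n M := by
    rw [hg1]
    exact Subgroup.mul_mem _ hg hE.2
  rw [mem_Gam] at hg1G
  obtain ⟨Z, hZ, hZA⟩ := Lprod (M := M) hf r
    (fun j => c * ((g1 : Matrix (Fin n) (Fin n) ℤ) j i - (1 : Matrix (Fin n) (Fin n) ℤ) j i))
    (Finset.univ.erase r) (Finset.notMem_erase _ _) (fun j _ => Dvd.dvd.mul_left (hg1G j i) c)
  have hid : g1 * el i r hi c = el i r hi c * (Z * g1) := by
    apply Subtype.ext
    ext a b
    rw [coe_mul', coe_mul', coe_mul', mul_el_apply, el_mul_apply, hZA, hZA, hrow,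
      if_neg (Finset.notMem_erase r _), add_zero]
    by_cases hb : b = r
    · rw [if_pos hb, if_pos hb]
      by_cases ha : a = r
      · rw [if_neg (by rw [ha]; exact Finset.notMem_erase _ _), ha, hrow b, hrow i, if_neg hi,
          if_neg (fun h : r = i => hi h.symm)]
        ring
      · rw [if_pos (Finset.mem_erase.2 ⟨ha, Finset.mem_univ _⟩)]
        by_cases hai : a = i
        · rw [if_pos hai, hai, Matrix.one_apply_eq]
          ring
        · rw [if_neg hai, Matrix.one_apply_ne hai]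
          ring
    · rw [if_neg hb, if_neg hb]
      simp
  have h1 := congrArg f hid
  rw [map_mul, map_mul, map_mul, (MonoidHom.mem_ker).1 hZ.1, one_mul, hfg] at h1
  exact h1

end

end CENaux

open CENaux

theorem t_CEN (hG : S_GEN) : S_CEN := by
  intro n hn Q _ f M hf g hg x
  have hgG : g ∈ Gam n M := mem_Gam.2 hg
  have hx : x ∈ Subgroup.closure {g : SLZ n | ∃ (i j : Fin n) (h : i ≠ j) (k : ℤ), g = el i j h k} := by
    rw [hG n]
    exact Subgroup.mem_top x
  induction hx using Subgroup.closure_induction with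
  | mem y hy =>
    obtain ⟨i, r, hir, c, rfl⟩ := hy
    obtain ⟨q, hqi, hqr⟩ : ∃ q : Fin n, q ≠ i ∧ q ≠ r := by
      obtain ⟨q, hq⟩ : ∃ q : Fin n, q ∉ ({i, r} : Finset (Fin n)) := by
        by_contra hcon
        push Not at hcon
        have h1 : (Finset.univ : Finset (Fin n)) ⊆ {i, r} := fun q _ => hcon q
        have h2 := Finset.card_le_card h1
        rw [Finset.card_univ, Fintype.card_fin] at h2
        have h3 := Finset.card_le_two (a := i) (b := r)
        omega
      simp only [Finset.mem_insert, Finset.mem_singleton, not_or] at hq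
      exact ⟨q, hq.1, hq.2⟩
    exact comm_el hf hqi.symm hir hqr hgG i hir c
  | one => rw [map_one, mul_one, one_mul]
  | mul y z _ _ hy hz => rw [map_mul, ← mul_assoc, hy, mul_assoc, hz, mul_assoc]
  | inv y _ hy =>
    rw [map_inv]
    exact (Commute.inv_right (show Commute (f g) (f y) from hy)).eq

end Pool.Agent.N702.CP
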