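import Pool.Agent.N702.CP.Stm

/-!
# Project CP, part GEN (helper371): `SL_n(ℤ)` is generated by the elementary matrices
-/

set_option autoImplicit false

namespace Pool.Agent.N702.CP

namespace GenX

/-- the subgroup generated by the elementary matrices -/
def H (n : ℕ) : Subgroup (SLZ n) :=
  Subgroup.closure {g : SLZ n | ∃ (i j : Fin n) (h : i ≠ j) (k : ℤ), g = el i j h k}

lemma el_mem {n : ℕ} {i j : Fin n} (h : i ≠ j) (k : ℤ) : el i j h k ∈ H n :=
  Subgroup.subset_closure ⟨i, j, h, k, rfl⟩

lemma el_mulVec {n : ℕ} {i j : Fin n} (h : i ≠ j) (k : ℤ) (z : Fin n → ℤ) :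
    (el i j h k : Matrix (Fin n) (Fin n) ℤ).mulVec z = Function.update z i (z i + k * z j) := by
  funext l
  simp only [el, Matrix.transvection, Matrix.add_mulVec, Matrix.one_mulVec, Pi.add_apply,
    Matrix.single_mulVec]
  by_cases hl : l = i
  · subst hl
    simp
  · simp [hl]

/-- Every integer vector can be moved to a multiple of the basis vector `e_a`. -/
lemma euclid {n : ℕ} (a : Fin n) : ∀ (m : ℕ) (z : Fin n → ℤ),
    (z a).natAbs + 2 * ∑ j ∈ Finset.univ.erase a, (z j).natAbs ≤ m →
    ∃ A ∈ H n, ∃ g : ℤ, (A : Matrix (Fin n) (Fin n) ℤ).mulVec z = Pi.single a g := by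
  intro m
  induction m using Nat.strong_induction_on with
  | _ m ih =>
    intro z hz
    by_cases hall : ∀ j, j ≠ a → z j = 0
    · refine ⟨1, one_mem _, z a, ?_⟩
      simp only [Matrix.SpecialLinearGroup.coe_one, Matrix.one_mulVec]
      funext j
      by_cases hj : j = a
      · subst hj; simp
      · simp [hj, hall j hj]
    · push Not at hall
      obtain ⟨j, hja, hj⟩ := hall
      have hmem : j ∈ Finset.univ.erase a := by simp [hja]
      have hsum : ∀ w : Fin n → ℤ, (∀ l, l ≠ a → l ≠ j → w l = z l) →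
          ∑ l ∈ Finset.univ.erase a, (w l).natAbs + (z j).natAbs =
            ∑ l ∈ Finset.univ.erase a, (z l).natAbs + (w j).natAbs := by
        intro w hw
        rw [← Finset.add_sum_erase _ _ hmem, ← Finset.add_sum_erase _ (fun l => (z l).natAbs) hmem]
        have : ∑ x ∈ (Finset.univ.erase a).erase j, (w x).natAbs =
            ∑ x ∈ (Finset.univ.erase a).erase j, (z x).natAbs := by
          apply Finset.sum_congr rfl
          intro l hl
          simp only [Finset.mem_erase, Finset.mem_univ, and_true] at hl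
          rw [hw l hl.2 hl.1]
        omega
      have step : ∀ (B : SLZ n) (w : Fin n → ℤ), B ∈ H n →
          (B : Matrix (Fin n) (Fin n) ℤ).mulVec z = w →
          (w a).natAbs + 2 * ∑ l ∈ Finset.univ.erase a, (w l).natAbs < m →
          ∃ A ∈ H n, ∃ g : ℤ, (A : Matrix (Fin n) (Fin n) ℤ).mulVec z = Pi.single a g := by
        intro B w hBH hB hw
        obtain ⟨A, hAH, g, hA⟩ := ih _ hw w le_rfl
        refine ⟨A * B, mul_mem hAH hBH, g, ?_⟩
        rw [Matrix.SpecialLinearGroup.coe_mul, ← Matrix.mulVec_mulVec, hB, hA]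
      by_cases hza : z a = 0
      · -- move the entry `z j` to the place `a`
        apply step (el j a hja (-1) * el a j hja.symm 1)
          (Function.update (Function.update z a (z j)) j 0)
          (mul_mem (el_mem _ _) (el_mem _ _))
        · rw [Matrix.SpecialLinearGroup.coe_mul, ← Matrix.mulVec_mulVec, el_mulVec, el_mulVec]
          funext l
          by_cases hl : l = j
          · subst hl
            simp [hja, hza]
          · by_cases hla : l = a
            · subst hla
              simp [Function.update_apply, hl, hza]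
            · simp [Function.update_apply, hl, hla]
        · have h1 := hsum (Function.update (Function.update z a (z j)) j 0) (by
            intro l hla hlj
            simp [hla, hlj])
          have h2 : Function.update (Function.update z a (z j)) j 0 a = z j := by
            simp [hja.symm]
          have h3 : Function.update (Function.update z a (z j)) j 0 j = 0 := by simp
          rw [h2]
          rw [h3] at h1
          simp only [Int.natAbs_zero, add_zero] at h1
          have h4 : 0 < (z j).natAbs := Int.natAbs_pos.2 hj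
          omega
      · by_cases hle : (z j).natAbs ≤ (z a).natAbs
        · -- reduce the entry `z a`
          apply step (el a j hja.symm (-(z a).sign * (z j).sign)) _ (el_mem _ _)
            (el_mulVec _ _ _)
          have h1 := hsum (Function.update z a (z a + -(z a).sign * (z j).sign * z j)) (by
            intro l hla hlj
            simp [hla])
          have h2 : Function.update z a (z a + -(z a).sign * (z j).sign * z j) j = z j := by
            simp [hja]
          have h3 : Function.update z a (z a + -(z a).sign * (z j).sign * z j) a =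
            z a + -(z a).sign * (z j).sign * z j := by simp
          rw [h2] at h1
          rw [h3]
          have h4 : 0 < (z j).natAbs := Int.natAbs_pos.2 hj
          have h5 : (z a + -(z a).sign * (z j).sign * z j).natAbs < (z a).natAbs := by
            have e : (z j).sign * z j = ((z j).natAbs : ℤ) := Int.sign_mul_self_eq_natAbs _
            rw [mul_assoc, e]
            rcases lt_or_gt_of_ne hza with h | h
            · rw [Int.sign_eq_neg_one_of_neg h]
              omega
            · rw [Int.sign_eq_one_of_pos h]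
              omega
          omega
        · -- reduce the entry `z j`
          apply step (el j a hja (-(z j).sign * (z a).sign)) _ (el_mem _ _) (el_mulVec _ _ _)
          have h1 := hsum (Function.update z j (z j + -(z j).sign * (z a).sign * z a)) (by
            intro l hla hlj
            simp [hlj])
          have h2 : Function.update z j (z j + -(z j).sign * (z a).sign * z a) j =
            z j + -(z j).sign * (z a).sign * z a := by simp
          have h3 : Function.update z j (z j + -(z j).sign * (z a).sign * z a) a = z a := by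
            simp [hja.symm]
          rw [h2] at h1
          rw [h3]
          have h4 : 0 < (z a).natAbs := Int.natAbs_pos.2 hza
          have h5 : (z j + -(z j).sign * (z a).sign * z a).natAbs < (z j).natAbs := by
            have e : (z a).sign * z a = ((z a).natAbs : ℤ) := Int.sign_mul_self_eq_natAbs _
            rw [mul_assoc, e]
            rcases lt_or_gt_of_ne hj with h | h
            · rw [Int.sign_eq_neg_one_of_neg h]
              omega
            · rw [Int.sign_eq_one_of_pos h]
              omega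
          omega

/-- the vector `-e_a` can be moved to `e_a` -/
lemma sign_fix {n : ℕ} {a b : Fin n} (h : a ≠ b) : ∃ A ∈ H n,
    (A : Matrix (Fin n) (Fin n) ℤ).mulVec (Pi.single a (-1)) = Pi.single a 1 := by
  refine ⟨el b a h.symm 1 * (el a b h (-2) * el b a h.symm 1),
    mul_mem (el_mem _ _) (mul_mem (el_mem _ _) (el_mem _ _)), ?_⟩
  rw [Matrix.SpecialLinearGroup.coe_mul, ← Matrix.mulVec_mulVec, Matrix.SpecialLinearGroup.coe_mul,
    ← Matrix.mulVec_mulVec, el_mulVec, el_mulVec, el_mulVec]
  funext l
  by_cases hl : l = b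
  · subst hl
    simp [Function.update_apply, h, h.symm]
  · by_cases hla : l = a
    · subst hla
      simp [Function.update_apply, h]
    · simp [Function.update_apply, hl, hla]

/-- the matrix with the blocks `1`, `r`, `0`, `M` -/
def blk {n : ℕ} (r : Fin n → ℤ) (M : Matrix (Fin n) (Fin n) ℤ) :
    Matrix (Fin (n + 1)) (Fin (n + 1)) ℤ :=
  Matrix.of (Fin.cons (Fin.cons 1 r) fun i => Fin.cons 0 (M i))

lemma blk_zz {n : ℕ} (r : Fin n → ℤ) (M : Matrix (Fin n) (Fin n) ℤ) : blk r M 0 0 = 1 := rfl

lemma blk_zs {n : ℕ} (r : Fin n → ℤ) (M : Matrix (Fin n) (Fin n) ℤ) (j : Fin n) :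
    blk r M 0 j.succ = r j := rfl

lemma blk_sz {n : ℕ} (r : Fin n → ℤ) (M : Matrix (Fin n) (Fin n) ℤ) (i : Fin n) :
    blk r M i.succ 0 = 0 := rfl

lemma blk_ss {n : ℕ} (r : Fin n → ℤ) (M : Matrix (Fin n) (Fin n) ℤ) (i j : Fin n) :
    blk r M i.succ j.succ = M i j := rfl

lemma det_blk {n : ℕ} (r : Fin n → ℤ) (M : Matrix (Fin n) (Fin n) ℤ) :
    (blk r M).det = M.det := by
  rw [Matrix.det_succ_column_zero, Fin.sum_univ_succ]
  have h1 : ∀ i : Fin n, (-1 : ℤ) ^ ((i.succ : Fin (n + 1)) : ℕ) * blk r M i.succ 0 *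
      ((blk r M).submatrix i.succ.succAbove Fin.succ).det = 0 := by
    intro i
    rw [blk_sz]
    ring
  rw [Finset.sum_eq_zero fun i _ => h1 i, blk_zz, add_zero]
  have h2 : (blk r M).submatrix (Fin.succAbove 0) Fin.succ = M := by
    ext i j
    rw [Matrix.submatrix_apply, Fin.succAbove_zero, blk_ss]
  rw [h2]
  simp

lemma blk_mul {n : ℕ} (r s : Fin n → ℤ) (M N : Matrix (Fin n) (Fin n) ℤ) :
    blk r M * blk s N = blk (s + Matrix.vecMul r N) (M * N) := by
  ext i j
  rw [Matrix.mul_apply, Fin.sum_univ_succ]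
  refine Fin.cases ?_ (fun i => ?_) i <;> refine Fin.cases ?_ (fun j => ?_) j
  · simp only [blk_zz, blk_zs, blk_sz]
    simp
  · simp only [blk_zz, blk_zs, blk_ss, Pi.add_apply, Matrix.vecMul, dotProduct, one_mul]
  · simp only [blk_sz, blk_zz, blk_ss]
    simp
  · simp only [blk_sz, blk_zs, blk_ss, zero_mul, zero_add, Matrix.mul_apply]

/-- the block matrix as an element of `SL_(n+1)(ℤ)` -/
def bk {n : ℕ} (r : Fin n → ℤ) (M : SLZ n) : SLZ (n + 1) :=
  ⟨blk r (M : Matrix (Fin n) (Fin n) ℤ), by rw [det_blk]; exact M.2⟩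

lemma bk_mul {n : ℕ} (r s : Fin n → ℤ) (M N : SLZ n) :
    bk r M * bk s N = bk (s + Matrix.vecMul r (N : Matrix (Fin n) (Fin n) ℤ)) (M * N) := by
  apply Subtype.ext
  rw [Matrix.SpecialLinearGroup.coe_mul]
  exact (blk_mul r s M N).trans (by rw [← Matrix.SpecialLinearGroup.coe_mul]; rfl)

lemma bk_one {n : ℕ} : bk (0 : Fin n → ℤ) 1 = 1 := by
  apply Subtype.ext
  show blk (0 : Fin n → ℤ) ((1 : SLZ n) : Matrix (Fin n) (Fin n) ℤ) =
    ((1 : SLZ (n + 1)) : Matrix (Fin (n + 1)) (Fin (n + 1)) ℤ)
  rw [Matrix.SpecialLinearGroup.coe_one, Matrix.SpecialLinearGroup.coe_one]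
  ext i j
  refine Fin.cases ?_ (fun i => ?_) i <;> refine Fin.cases ?_ (fun j => ?_) j
  · rw [blk_zz]; simp
  · rw [blk_zs, Matrix.one_apply_ne (Fin.succ_ne_zero j).symm]; rfl
  · rw [blk_sz, Matrix.one_apply_ne (Fin.succ_ne_zero i)]
  · rw [blk_ss, Matrix.one_apply, Matrix.one_apply]
    simp only [Fin.succ_inj]

/-- the block embedding -/
def bh (n : ℕ) : SLZ n →* SLZ (n + 1) where
  toFun M := bk 0 M
  map_one' := bk_one
  map_mul' M N := by
    rw [bk_mul, Matrix.zero_vecMul, add_zero]

lemma bh_el {n : ℕ} {i j : Fin n} (h : i ≠ j) (k : ℤ) :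
    bh n (el i j h k) = el i.succ j.succ (fun e => h (Fin.succ_inj.1 e)) k := by
  apply Subtype.ext
  show blk (0 : Fin n → ℤ) (Matrix.transvection i j k) = Matrix.transvection i.succ j.succ k
  ext a b
  refine Fin.cases ?_ (fun a => ?_) a <;> refine Fin.cases ?_ (fun b => ?_) b
  · rw [blk_zz]
    simp [Matrix.transvection, Matrix.single_apply]
  · rw [blk_zs]
    simp [Matrix.transvection, Matrix.single_apply, Matrix.one_apply, (Fin.succ_ne_zero b).symm]
  · rw [blk_sz]
    simp [Matrix.transvection, Matrix.single_apply, Matrix.one_apply]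
  · rw [blk_ss]
    simp [Matrix.transvection, Matrix.single_apply, Matrix.one_apply]

lemma bh_mem {n : ℕ} (ih : H n = ⊤) (M : SLZ n) : bh n M ∈ H (n + 1) := by
  have h1 : H n ≤ (H (n + 1)).comap (bh n) := by
    refine (Subgroup.closure_le _).2 ?_
    rintro _ ⟨i, j, h, k, rfl⟩
    show bh n (el i j h k) ∈ H (n + 1)
    rw [bh_el]
    exact el_mem _ _
  rw [ih] at h1
  exact h1 (Subgroup.mem_top M)

lemma row_single {n : ℕ} (j : Fin n) (c : ℤ) :
    bk (Pi.single j c) 1 = el 0 j.succ (Fin.succ_ne_zero j).symm c := by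
  apply Subtype.ext
  show blk (Pi.single j c) ((1 : SLZ n) : Matrix (Fin n) (Fin n) ℤ) =
    Matrix.transvection 0 j.succ c
  rw [Matrix.SpecialLinearGroup.coe_one]
  ext a b
  refine Fin.cases ?_ (fun a => ?_) a <;> refine Fin.cases ?_ (fun b => ?_) b
  · rw [blk_zz]
    simp [Matrix.transvection, Matrix.single_apply]
  · rw [blk_zs]
    simp [Matrix.transvection, Matrix.single_apply, Matrix.one_apply, (Fin.succ_ne_zero b).symm,
      Pi.single_apply, eq_comm]
  · rw [blk_sz]
    simp [Matrix.transvection, Matrix.single_apply, Matrix.one_apply]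
  · rw [blk_ss]
    simp [Matrix.transvection, Matrix.single_apply, Matrix.one_apply, (Fin.succ_ne_zero a).symm]

/-- the rows `r` such that the matrix with the first row `(1, r)` is in `H` -/
def rows (n : ℕ) : AddSubmonoid (Fin n → ℤ) where
  carrier := {r | bk r 1 ∈ H (n + 1)}
  zero_mem' := by
    show bk (0 : Fin n → ℤ) 1 ∈ H (n + 1)
    rw [bk_one]
    exact one_mem _
  add_mem' := by
    intro r s hr hs
    show bk (r + s) 1 ∈ H (n + 1)
    have h1 : bk (r + s) (1 : SLZ n) = bk s 1 * bk r 1 := by
      rw [bk_mul, Matrix.SpecialLinearGroup.coe_one, Matrix.vecMul_one, one_mul]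
    rw [h1]
    exact mul_mem hs hr

lemma row_mem {n : ℕ} (r : Fin n → ℤ) : bk r (1 : SLZ n) ∈ H (n + 1) := by
  have h1 : (∑ j, Pi.single j (r j) : Fin n → ℤ) ∈ rows n := by
    refine sum_mem fun j _ => ?_
    show bk (Pi.single j (r j)) 1 ∈ H (n + 1)
    rw [row_single]
    exact el_mem _ _
  rw [Finset.univ_sum_single] at h1
  exact h1

/-- a matrix whose first column is `e_0` is a block matrix -/
lemma of_col {n : ℕ} (ih : H n = ⊤) (g : SLZ (n + 1))
    (h0 : (g : Matrix (Fin (n + 1)) (Fin (n + 1)) ℤ) 0 0 = 1)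
    (hs : ∀ i : Fin n, (g : Matrix (Fin (n + 1)) (Fin (n + 1)) ℤ) i.succ 0 = 0) :
    g ∈ H (n + 1) := by
  let G : Matrix (Fin (n + 1)) (Fin (n + 1)) ℤ := g
  let r : Fin n → ℤ := fun j => G 0 j.succ
  let M : Matrix (Fin n) (Fin n) ℤ := Matrix.of fun i j => G i.succ j.succ
  have hG : blk r M = G := by
    ext a b
    refine Fin.cases ?_ (fun a => ?_) a <;> refine Fin.cases ?_ (fun b => ?_) b
    · rw [blk_zz]; exact h0.symm
    · rw [blk_zs]
    · rw [blk_sz]; exact (hs a).symm
    · rw [blk_ss]; rfl
  have hM : M.det = 1 := by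
    rw [← det_blk r M, hG]
    exact g.2
  have h1 : g = bk 0 ⟨M, hM⟩ * bk r 1 := by
    rw [bk_mul, Matrix.zero_vecMul, add_zero, mul_one]
    apply Subtype.ext
    exact hG.symm
  rw [h1]
  exact mul_mem (bh_mem ih ⟨M, hM⟩) (row_mem r)

lemma all (n : ℕ) : H n = ⊤ := by
  induction n with
  | zero =>
    rw [eq_top_iff]
    intro g _
    have : g = 1 := by
      apply Subtype.ext
      ext i
      exact i.elim0
    rw [this]
    exact one_mem _
  | succ n ih =>
    rw [eq_top_iff]
    intro g _
    obtain ⟨A, hA, c, hc⟩ := euclid (0 : Fin (n + 1)) _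
      (fun i => (g : Matrix (Fin (n + 1)) (Fin (n + 1)) ℤ) i 0) le_rfl
    -- the first column of `A g`
    have hcol : ∀ (B : SLZ (n + 1)) (x : SLZ (n + 1)) (i : Fin (n + 1)),
        ((B * x : SLZ (n + 1)) : Matrix (Fin (n + 1)) (Fin (n + 1)) ℤ) i 0 =
          (B : Matrix (Fin (n + 1)) (Fin (n + 1)) ℤ).mulVec
            (fun i => (x : Matrix (Fin (n + 1)) (Fin (n + 1)) ℤ) i 0) i := by
      intro B x i
      rw [Matrix.SpecialLinearGroup.coe_mul, Matrix.mul_apply]
      rfl
    have h1 : ∀ i, ((A * g : SLZ (n + 1)) : Matrix (Fin (n + 1)) (Fin (n + 1)) ℤ) i 0 =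
        (Pi.single 0 c : Fin (n + 1) → ℤ) i := by
      intro i
      rw [hcol, hc]
    have h2 : c = 1 ∨ c = -1 := by
      have hdet : ((A * g : SLZ (n + 1)) : Matrix (Fin (n + 1)) (Fin (n + 1)) ℤ).det = 1 :=
        (A * g).2
      rw [Matrix.det_succ_column_zero, Fin.sum_univ_succ] at hdet
      have h3 : ∀ i : Fin n, (-1 : ℤ) ^ ((i.succ : Fin (n + 1)) : ℕ) *
          ((A * g : SLZ (n + 1)) : Matrix (Fin (n + 1)) (Fin (n + 1)) ℤ) i.succ 0 *
          (((A * g : SLZ (n + 1)) : Matrix (Fin (n + 1)) (Fin (n + 1)) ℤ).submatrix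
            i.succ.succAbove Fin.succ).det = 0 := by
        intro i
        rw [h1, Pi.single_eq_of_ne (Fin.succ_ne_zero i)]
        ring
      rw [Finset.sum_eq_zero fun i _ => h3 i, h1, Pi.single_eq_same, add_zero] at hdet
      have h4 : c * (((A * g : SLZ (n + 1)) : Matrix (Fin (n + 1)) (Fin (n + 1)) ℤ).submatrix
            (Fin.succAbove 0) Fin.succ).det = 1 := by
        refine Eq.trans ?_ hdet
        simp
      exact Int.eq_one_or_neg_one_of_mul_eq_one h4
    -- reduction to `c = 1`
    obtain ⟨B, hB, hBc⟩ : ∃ B ∈ H (n + 1),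
        (B : Matrix (Fin (n + 1)) (Fin (n + 1)) ℤ).mulVec (Pi.single 0 c) = Pi.single 0 1 := by
      rcases h2 with rfl | rfl
      · refine ⟨1, one_mem _, ?_⟩
        rw [Matrix.SpecialLinearGroup.coe_one, Matrix.one_mulVec]
      · rcases Nat.eq_zero_or_pos n with rfl | hn
        · exfalso
          have hdet : ((A * g : SLZ 1) : Matrix (Fin 1) (Fin 1) ℤ).det = 1 := (A * g).2
          rw [Matrix.det_fin_one, h1, Pi.single_eq_same] at hdet
          norm_num at hdet
        · have hne : (0 : Fin (n + 1)) ≠ (⟨0, hn⟩ : Fin n).succ := (Fin.succ_ne_zero _).symm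
          exact sign_fix hne
    have h5 : B * (A * g) ∈ H (n + 1) := by
      have h6 : ∀ i, ((B * (A * g) : SLZ (n + 1)) : Matrix (Fin (n + 1)) (Fin (n + 1)) ℤ) i 0 =
          (Pi.single 0 1 : Fin (n + 1) → ℤ) i := by
        intro i
        rw [hcol]
        have h7 : (fun i => ((A * g : SLZ (n + 1)) : Matrix (Fin (n + 1)) (Fin (n + 1)) ℤ) i 0) =
            Pi.single 0 c := funext h1
        rw [h7, hBc]
      refine of_col ih _ ?_ fun i => ?_
      · rw [h6, Pi.single_eq_same]
      · rw [h6, Pi.single_eq_of_ne (Fin.succ_ne_zero i)]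
    have h8 : g = A⁻¹ * (B⁻¹ * (B * (A * g))) := by group
    rw [h8]
    exact mul_mem (inv_mem hA) (mul_mem (inv_mem hB) h5)

end GenX

theorem t_GEN : S_GEN := fun n => GenX.all n

end Pool.Agent.N702.CP
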