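import Pool.Agent.N702.CP.Stm

/-!
# Project CP (helper702): the assembly
-/

set_option autoImplicit false

namespace Pool.Agent.N702.CP.Asm

open Pool.Agent.N702.CP

lemma el_add {n : ℕ} (i j : Fin n) (h : i ≠ j) (k l : ℤ) :
    el i j h (k + l) = el i j h k * el i j h l := by
  apply Subtype.ext
  change Matrix.transvection i j (k + l) = Matrix.transvection i j k * Matrix.transvection i j l
  exact (Matrix.transvection_mul_transvection_same i j h k l).symm

lemma el_zero {n : ℕ} (i j : Fin n) (h : i ≠ j) : el i j h 0 = 1 := by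
  apply Subtype.ext
  change Matrix.transvection i j 0 = 1
  exact Matrix.transvection_zero i j

lemma el_neg {n : ℕ} (i j : Fin n) (h : i ≠ j) (k : ℤ) : el i j h (-k) = (el i j h k)⁻¹ := by
  have h1 := el_add i j h (-k) k
  rw [neg_add_cancel, el_zero] at h1
  exact eq_inv_of_mul_eq_one_left h1.symm

lemma el_pow {n : ℕ} (i j : Fin n) (h : i ≠ j) (k : ℤ) (N : ℕ) :
    el i j h k ^ N = el i j h (N * k) := by
  induction N with
  | zero => simp [el_zero]
  | succ N ih =>
    rw [pow_succ, ih, ← el_add]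
    congr 1
    push_cast
    ring

lemma el_comm {n : ℕ} (i j l : Fin n) (hij : i ≠ j) (hil : i ≠ l) (hlj : l ≠ j) :
    el i j hij 1 = el i l hil 1 * el l j hlj 1 * (el i l hil 1)⁻¹ * (el l j hlj 1)⁻¹ := by
  rw [← el_neg, ← el_neg]
  apply Subtype.ext
  change Matrix.transvection i j (1 : ℤ) = Matrix.transvection i l 1 * Matrix.transvection l j 1 *
    Matrix.transvection i l (-1) * Matrix.transvection l j (-1)
  simp only [Matrix.transvection, Matrix.add_mul, Matrix.mul_add, Matrix.one_mul, Matrix.mul_one]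
  simp only [Matrix.single_mul_single_same, Matrix.single_mul_single_of_ne _ _ _ _ hlj.symm,
    Matrix.single_mul_single_of_ne _ _ _ _ hil.symm, Matrix.single_mul_single_of_ne _ _ _ _ hij.symm,
    Matrix.zero_mul]
  ext a b
  simp [Matrix.single_apply]
  ring_nf
  split_ifs <;> simp_all

/-- the orders of the images of the elementary matrices -/
theorem ord (hU : S_UNI) (n : ℕ) (hn : 3 ≤ n) (p : ℕ) [Fact p.Prime] (d : ℕ) :
    ∃ N : ℕ, 1 ≤ N ∧ ∀ (R : Type) [CommRing R] [CharP R p]
      (f : SLZ n →* Matrix.GeneralLinearGroup (Fin d) R) (i j : Fin n) (h : i ≠ j),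
      f (el i j h (N : ℤ)) = 1 := by
  obtain ⟨N, hN, H⟩ := hU p d
  refine ⟨N, hN, fun R _ _ f i j h => ?_⟩
  obtain ⟨l, hl⟩ : ∃ l : Fin n, l ∉ ({i, j} : Finset (Fin n)) := by
    by_contra hc
    push Not at hc
    have h1 : (Finset.univ : Finset (Fin n)) ⊆ {i, j} := fun x _ => hc x
    have h2 := Finset.card_le_card h1
    have h3 : ({i, j} : Finset (Fin n)).card ≤ 2 := Finset.card_le_two
    rw [Finset.card_univ, Fintype.card_fin] at h2
    omega
  rw [Finset.mem_insert, Finset.mem_singleton, not_or] at hl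
  have hil : i ≠ l := fun e => hl.1 e.symm
  have hlj : l ≠ j := hl.2
  have e1 := el_comm i j l h hil hlj
  have c1 : Commute (el i j h 1) (el i l hil 1) := by
    apply Subtype.ext
    change Matrix.transvection i j (1 : ℤ) * Matrix.transvection i l 1 =
      Matrix.transvection i l 1 * Matrix.transvection i j 1
    simp only [Matrix.transvection, Matrix.add_mul, Matrix.mul_add, Matrix.one_mul, Matrix.mul_one,
      Matrix.single_mul_single_of_ne _ _ _ _ h.symm, Matrix.single_mul_single_of_ne _ _ _ _ hil.symm]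
    abel
  have c2 : Commute (el i j h 1) (el l j hlj 1) := by
    apply Subtype.ext
    change Matrix.transvection i j (1 : ℤ) * Matrix.transvection l j 1 =
      Matrix.transvection l j 1 * Matrix.transvection i j 1
    simp only [Matrix.transvection, Matrix.add_mul, Matrix.mul_add, Matrix.one_mul, Matrix.mul_one,
      Matrix.single_mul_single_of_ne _ _ _ _ hlj.symm, Matrix.single_mul_single_of_ne _ _ _ _ h.symm]
    abel
  have e2 : f (el i j h 1) = f (el i l hil 1) * f (el l j hlj 1) * (f (el i l hil 1))⁻¹ *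
      (f (el l j hlj 1))⁻¹ := by
    rw [e1, map_mul, map_mul, map_mul, map_inv, map_inv]
  have d1 : Commute (f (el i j h 1)) (f (el i l hil 1)) := c1.map f
  have d2 : Commute (f (el i j h 1)) (f (el l j hlj 1)) := c2.map f
  rw [e2] at d1 d2
  have h5 := H R (f (el i l hil 1)) (f (el l j hlj 1)) d1 d2
  rw [← e2, ← map_pow, el_pow, mul_one] at h5
  exact h5

/-- the finite part: the images in finite rings -/
theorem fin_bound (hU : S_UNI) (hB : S_BND) (n : ℕ) (hn : 3 ≤ n) (p : ℕ) [Fact p.Prime] (d : ℕ) :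
    ∃ B : ℕ, ∀ (Λ : Type) [Group Λ],
      (∀ (Q : Type) [Group Q] [Finite Q], (∃ f : Λ →* Q, Function.Surjective f) →
        ∃ f : SLZ n →* Q, Function.Surjective f) →
      ∀ (R : Type) [CommRing R] [CharP R p] [Finite R]
        (ρ : Λ →* Matrix.GeneralLinearGroup (Fin d) R), Nat.card ρ.range ≤ B := by
  obtain ⟨N, hN, H⟩ := ord hU n hn p d
  obtain ⟨B, hB⟩ := hB n hn N hN
  refine ⟨B, fun Λ _ hΛ R _ _ _ ρ => ?_⟩
  have hfin : Finite (Matrix.GeneralLinearGroup (Fin d) R) :=
    Finite.of_injective (fun u : (Matrix (Fin d) (Fin d) R)ˣ => (u : Matrix (Fin d) (Fin d) R))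
      Units.val_injective
  obtain ⟨f, hf⟩ := hΛ ρ.range ⟨ρ.rangeRestrict, ρ.rangeRestrict_surjective⟩
  refine hB ρ.range f hf fun i j h => ?_
  have h1 := H R (ρ.range.subtype.comp f) i j h
  apply Subtype.ext
  exact h1

/-- a finitely generated ring of definition -/
lemma ring_of_def (p : ℕ) [Fact p.Prime] (d : ℕ) (Λ : Type) [Group Λ] [Group.FG Λ] (R : Type)
    [CommRing R] [Algebra (ZMod p) R] (ρ : Λ →* Matrix.GeneralLinearGroup (Fin d) R) :
    ∃ A : Subalgebra (ZMod p) R, A.FG ∧
      ∀ (x : Λ) (i j : Fin d), (ρ x : Matrix (Fin d) (Fin d) R) i j ∈ A := by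
  classical
  obtain ⟨S₀, hS₀, hSf⟩ := (Group.fg_iff (G := Λ)).1 inferInstance
  obtain ⟨S, rfl⟩ := hSf.exists_finset_coe
  have hS := hS₀
  let E : Finset R := (S ×ˢ (Finset.univ ×ˢ Finset.univ : Finset (Fin d × Fin d))).image
      (fun q => (ρ q.1 : Matrix (Fin d) (Fin d) R) q.2.1 q.2.2) ∪
    (S ×ˢ (Finset.univ ×ˢ Finset.univ : Finset (Fin d × Fin d))).image
      (fun q => ((ρ q.1)⁻¹ : Matrix.GeneralLinearGroup (Fin d) R).val q.2.1 q.2.2)
  refine ⟨Algebra.adjoin (ZMod p) (E : Set R), Subalgebra.fg_adjoin_finset E, ?_⟩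
  set A := Algebra.adjoin (ZMod p) (E : Set R) with hA
  have key : ∀ x : Λ, (∀ i j, (ρ x).val i j ∈ A) ∧ ∀ i j, ((ρ x)⁻¹).val i j ∈ A := by
    intro x
    have hx : x ∈ Subgroup.closure (S : Set Λ) := by rw [hS]; trivial
    induction hx using Subgroup.closure_induction with
    | mem x hx =>
      refine ⟨fun i j => Algebra.subset_adjoin ?_, fun i j => Algebra.subset_adjoin ?_⟩
      · rw [Finset.mem_coe]
        refine Finset.mem_union_left _ (Finset.mem_image.2 ⟨(x, (i, j)), ?_, rfl⟩)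
        simpa using hx
      · rw [Finset.mem_coe]
        refine Finset.mem_union_right _ (Finset.mem_image.2 ⟨(x, (i, j)), ?_, rfl⟩)
        simpa using hx
    | one =>
      have h1 : ∀ i j, (1 : Matrix (Fin d) (Fin d) R) i j ∈ A := fun i j => by
        rw [Matrix.one_apply]
        split_ifs
        · exact A.one_mem
        · exact A.zero_mem
      refine ⟨fun i j => ?_, fun i j => ?_⟩
      · rw [map_one, Units.val_one]; exact h1 i j
      · rw [map_one, inv_one, Units.val_one]; exact h1 i j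
    | mul x y _ _ hx hy =>
      have h1 : ∀ P Q : Matrix (Fin d) (Fin d) R, (∀ i j, P i j ∈ A) → (∀ i j, Q i j ∈ A) →
          ∀ i j, (P * Q) i j ∈ A := fun P Q hP hQ i j => by
        rw [Matrix.mul_apply]
        exact A.sum_mem fun k _ => A.mul_mem (hP i k) (hQ k j)
      refine ⟨fun i j => ?_, fun i j => ?_⟩
      · rw [map_mul, Units.val_mul]; exact h1 _ _ hx.1 hy.1 i j
      · rw [map_mul, mul_inv_rev, Units.val_mul]; exact h1 _ _ hy.2 hx.2 i j
    | inv x _ hx =>
      refine ⟨fun i j => ?_, fun i j => ?_⟩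
      · rw [map_inv]; exact hx.2 i j
      · rw [map_inv, inv_inv]; exact hx.1 i j
  exact fun x i j => (key x).1 i j

/-- the main theorem -/
theorem main (hU : S_UNI) (hB : S_BND) (hS : S_SEP) (n : ℕ) (hn : 3 ≤ n) (p : ℕ) (hp : p.Prime)
    (d : ℕ) : ∃ B : ℕ, ∀ (Λ : Type) [Group Λ] [Group.FG Λ],
      (∀ (Q : Type) [Group Q] [Finite Q], (∃ f : Λ →* Q, Function.Surjective f) →
        ∃ f : SLZ n →* Q, Function.Surjective f) →
      ∀ (R : Type) [CommRing R] [CharP R p] (ρ : Λ →* Matrix.GeneralLinearGroup (Fin d) R),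
        Finite ρ.range ∧ Nat.card ρ.range ≤ B := by
  classical
  have : Fact p.Prime := ⟨hp⟩
  obtain ⟨B, hB⟩ := fin_bound hU hB n hn p d
  refine ⟨B, fun Λ _ _ hΛ R _ _ ρ => ?_⟩
  let _ : Algebra (ZMod p) R := ZMod.algebra R p
  have hR : Nontrivial R := CharP.nontrivial_of_char_ne_one (R := R) hp.ne_one
  obtain ⟨A, hAfg, hA⟩ := ring_of_def p d Λ R ρ
  have hft : Algebra.FiniteType (ZMod p) A := A.fg_iff_finiteType.1 hAfg
  -- the representation over `A`
  let ρ' : Λ →* Matrix (Fin d) (Fin d) A :=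
    { toFun := fun x => Matrix.of fun i j => ⟨(ρ x).val i j, hA x i j⟩
      map_one' := by
        ext i j
        simp only [map_one, Units.val_one, Matrix.of_apply, Matrix.one_apply]
        split_ifs <;> rfl
      map_mul' := fun x y => by
        ext i j
        simp [Matrix.mul_apply] }
  have hρ' : ∀ x i j, ((ρ' x i j : A) : R) = (ρ x).val i j := fun x i j => rfl
  let ρA : Λ →* (Matrix (Fin d) (Fin d) A)ˣ := ρ'.toHomUnits
  have hρA : ∀ x, ((ρA x : (Matrix (Fin d) (Fin d) A)ˣ) : Matrix (Fin d) (Fin d) A) = ρ' x :=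
    fun x => rfl
  have key : ∀ t : Finset (Matrix.GeneralLinearGroup (Fin d) R), (∀ x ∈ t, x ∈ ρ.range) →
      t.card ≤ B := by
    intro t ht
    have hg : ∀ x : Matrix.GeneralLinearGroup (Fin d) R, ∃ y : Λ, x ∈ t → ρ y = x := by
      intro x
      by_cases hx : x ∈ t
      · obtain ⟨y, hy⟩ := ht x hx
        exact ⟨y, fun _ => hy⟩
      · exact ⟨1, fun h => absurd h hx⟩
    choose g hg using hg
    let T : Finset A := (((t ×ˢ t) ×ˢ (Finset.univ ×ˢ Finset.univ :
      Finset (Fin d × Fin d))).image fun q =>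
        ρ' (g q.1.1) q.2.1 q.2.2 - ρ' (g q.1.2) q.2.1 q.2.2).filter (· ≠ 0)
    obtain ⟨J, hJ, hJf, hJT⟩ := hS p A T (by simp [T])
    have hnt : Nontrivial (A ⧸ J) := Ideal.Quotient.nontrivial_iff.2 hJ
    have hchar : CharP (A ⧸ J) p :=
      charP_of_injective_algebraMap (algebraMap (ZMod p) (A ⧸ J)).injective p
    let ψ : Λ →* Matrix.GeneralLinearGroup (Fin d) (A ⧸ J) :=
      (Units.map ((Ideal.Quotient.mk J).mapMatrix (m := Fin d)).toMonoidHom).comp ρA
    have hψ : ∀ x i j, (ψ x).val i j = Ideal.Quotient.mk J (ρ' x i j) := fun x i j => rfl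
    have h1 : Nat.card ψ.range ≤ B := hB Λ hΛ (A ⧸ J) ψ
    have hfin : Finite (Matrix.GeneralLinearGroup (Fin d) (A ⧸ J)) :=
      Finite.of_injective (fun u : (Matrix (Fin d) (Fin d) (A ⧸ J))ˣ =>
        (u : Matrix (Fin d) (Fin d) (A ⧸ J))) Units.val_injective
    have hinj : Function.Injective (fun x : t => (⟨ψ (g x), ⟨g x, rfl⟩⟩ : ψ.range)) := by
      intro x y hxy
      have h2 : ψ (g x) = ψ (g y) := congrArg Subtype.val hxy
      by_contra hne
      have h3 : ρ (g x) ≠ ρ (g y) := by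
        rw [hg x x.2, hg y y.2]
        exact fun h => hne (Subtype.ext h)
      obtain ⟨i, j, hij⟩ : ∃ i j, (ρ (g x)).val i j ≠ (ρ (g y)).val i j := by
        by_contra hc
        push Not at hc
        exact h3 (Units.ext (Matrix.ext hc))
      have h4 : ρ' (g x) i j - ρ' (g y) i j ≠ 0 := by
        intro h0
        apply hij
        rw [← hρ', ← hρ', sub_eq_zero.1 h0]
      have h5 : ρ' (g x) i j - ρ' (g y) i j ∈ T := by
        refine Finset.mem_filter.2 ⟨Finset.mem_image.2 ⟨((x.1, y.1), (i, j)), ?_, rfl⟩, h4⟩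
        simp
      apply hJT _ h5
      rw [← Ideal.Quotient.eq, ← hψ, ← hψ, h2]
    have h6 := Nat.card_le_card_of_injective _ hinj
    rw [Nat.card_eq_fintype_card, Fintype.card_coe] at h6
    exact h6.trans h1
  have h7 : (ρ.range : Set (Matrix.GeneralLinearGroup (Fin d) R)).encard ≤ B := by
    by_contra hc
    push Not at hc
    have h8 : ((B + 1 : ℕ) : ℕ∞) ≤
        (ρ.range : Set (Matrix.GeneralLinearGroup (Fin d) R)).encard := by
      push_cast
      exact Order.add_one_le_of_lt hc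
    obtain ⟨t, ht, hcard⟩ := Set.exists_subset_encard_eq h8
    have htf : t.Finite := Set.finite_of_encard_eq_coe hcard
    have h9 := key htf.toFinset (fun x hx => ht (htf.mem_toFinset.1 hx))
    have h10 : t.encard = htf.toFinset.card := htf.encard_eq_coe_toFinset_card
    rw [hcard] at h10
    have h11 : B + 1 = htf.toFinset.card := by exact_mod_cast h10
    omega
  obtain ⟨h12, h13⟩ := Set.encard_le_coe_iff_finite_ncard_le.1 h7
  exact ⟨h12.to_subtype, h13⟩

end Pool.Agent.N702.CP.Asm
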