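import Pool.Agent.N702.CP.Stm2

/-!
# Project CP (helper702): the assembly of the second part
-/

set_option autoImplicit false

namespace Pool.Agent.N702.CP.Asm2

open Pool.Agent.N702.CP

/-- a finitely generated ring of definition -/
lemma ring_of_def (d : ℕ) (Λ : Type) [Group Λ] [Group.FG Λ] (R : Type)
    [CommRing R] (ρ : Λ →* Matrix.GeneralLinearGroup (Fin d) R) :
    ∃ A : Subalgebra ℤ R, A.FG ∧
      ∀ (x : Λ) (i j : Fin d), (ρ x : Matrix (Fin d) (Fin d) R) i j ∈ A := by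
  classical
  obtain ⟨S₀, hS₀, hSf⟩ := (Group.fg_iff (G := Λ)).1 inferInstance
  obtain ⟨S, rfl⟩ := hSf.exists_finset_coe
  have hS := hS₀
  let E : Finset R := (S ×ˢ (Finset.univ ×ˢ Finset.univ : Finset (Fin d × Fin d))).image
      (fun q => (ρ q.1 : Matrix (Fin d) (Fin d) R) q.2.1 q.2.2) ∪
    (S ×ˢ (Finset.univ ×ˢ Finset.univ : Finset (Fin d × Fin d))).image
      (fun q => ((ρ q.1)⁻¹ : Matrix.GeneralLinearGroup (Fin d) R).val q.2.1 q.2.2)
  refine ⟨Algebra.adjoin ℤ (E : Set R), Subalgebra.fg_adjoin_finset E, ?_⟩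
  set A := Algebra.adjoin ℤ (E : Set R) with hA
  have key : ∀ x : Λ, (∀ i j, (ρ x).val i j ∈ A) ∧ ∀ i j, ((ρ x)⁻¹).val i j ∈ A := by
    intro x
    have hx : x ∈ Subgroup.closure (S : Set Λ) := by rw [hS]; trivial
    induction hx using Subgroup.closure_induction with
    | mem x hx =>
      refine ⟨fun i j => Algebra.subset_adjoin ?_, fun i j => Algebra.subset_adjoin ?_⟩
      · rw [Finset.mem_coe]
        refine Finset.mem_union_left _ (Finset.mem_image.2 ⟨(x, (i, j)), ?_, rfl⟩)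
        simpa using hx
      · rw [Finset.mem_coe]
        refine Finset.mem_union_right _ (Finset.mem_image.2 ⟨(x, (i, j)), ?_, rfl⟩)
        simpa using hx
    | one =>
      have h1 : ∀ i j, (1 : Matrix (Fin d) (Fin d) R) i j ∈ A := fun i j => by
        rw [Matrix.one_apply]
        split_ifs
        · exact A.one_mem
        · exact A.zero_mem
      refine ⟨fun i j => ?_, fun i j => ?_⟩
      · rw [map_one, Units.val_one]; exact h1 i j
      · rw [map_one, inv_one, Units.val_one]; exact h1 i j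
    | mul x y _ _ hx hy =>
      have h1 : ∀ P Q : Matrix (Fin d) (Fin d) R, (∀ i j, P i j ∈ A) → (∀ i j, Q i j ∈ A) →
          ∀ i j, (P * Q) i j ∈ A := fun P Q hP hQ i j => by
        rw [Matrix.mul_apply]
        exact A.sum_mem fun k _ => A.mul_mem (hP i k) (hQ k j)
      refine ⟨fun i j => ?_, fun i j => ?_⟩
      · rw [map_mul, Units.val_mul]; exact h1 _ _ hx.1 hy.1 i j
      · rw [map_mul, mul_inv_rev, Units.val_mul]; exact h1 _ _ hy.2 hx.2 i j
    | inv x _ hx =>
      refine ⟨fun i j => ?_, fun i j => ?_⟩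
      · rw [map_inv]; exact hx.2 i j
      · rw [map_inv, inv_inv]; exact hx.1 i j
  exact fun x i j => (key x).1 i j

/-- the main theorem of the second part -/
theorem main (hR : S_RNG) (hS : S_SEPZ) (n : ℕ) (hn : 3 ≤ n) (d : ℕ) (hd : d < n) (Λ : Type)
    [Group Λ] [Group.FG Λ]
    (hΛ : ∀ (Q : Type) [Group Q] [Finite Q], (∃ f : Λ →* Q, Function.Surjective f) →
        ∃ f : SLZ n →* Q, Function.Surjective f)
    (R : Type) [CommRing R] (ρ : Λ →* Matrix.GeneralLinearGroup (Fin d) R) (x : Λ) : ρ x = 1 := by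
  classical
  by_contra hx
  obtain ⟨i, j, hij⟩ : ∃ i j, (ρ x).val i j ≠ (1 : Matrix (Fin d) (Fin d) R) i j := by
    by_contra hc
    push Not at hc
    exact hx (Units.ext (Matrix.ext hc))
  have hRn : Nontrivial R := ⟨_, _, hij⟩
  obtain ⟨A, hAfg, hA⟩ := ring_of_def d Λ R ρ
  have hft : Algebra.FiniteType ℤ A := A.fg_iff_finiteType.1 hAfg
  let ρ' : Λ →* Matrix (Fin d) (Fin d) A :=
    { toFun := fun x => Matrix.of fun i j => ⟨(ρ x).val i j, hA x i j⟩
      map_one' := by
        ext i j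
        simp only [map_one, Units.val_one, Matrix.of_apply, Matrix.one_apply]
        split_ifs <;> rfl
      map_mul' := fun x y => by
        ext i j
        simp [Matrix.mul_apply] }
  have hρ' : ∀ x i j, ((ρ' x i j : A) : R) = (ρ x).val i j := fun x i j => rfl
  let ρA : Λ →* (Matrix (Fin d) (Fin d) A)ˣ := ρ'.toHomUnits
  have h4 : ρ' x i j - (1 : Matrix (Fin d) (Fin d) A) i j ≠ 0 := by
    intro h0
    apply hij
    rw [← hρ', sub_eq_zero.1 h0, Matrix.one_apply, Matrix.one_apply]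
    split_ifs <;> rfl
  obtain ⟨J, hJ, hJf, hJT⟩ := hS A {ρ' x i j - (1 : Matrix (Fin d) (Fin d) A) i j}
    (by rw [Finset.mem_singleton]; exact fun h => h4 h.symm)
  let ψ : Λ →* Matrix.GeneralLinearGroup (Fin d) (A ⧸ J) :=
    (Units.map ((Ideal.Quotient.mk J).mapMatrix (m := Fin d)).toMonoidHom).comp ρA
  have hψ : ∀ x i j, (ψ x).val i j = Ideal.Quotient.mk J (ρ' x i j) := fun x i j => rfl
  have hfin : Finite (Matrix.GeneralLinearGroup (Fin d) (A ⧸ J)) :=
    Finite.of_injective (fun u : (Matrix (Fin d) (Fin d) (A ⧸ J))ˣ =>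
      (u : Matrix (Fin d) (Fin d) (A ⧸ J))) Units.val_injective
  obtain ⟨f, hf⟩ := hΛ ψ.range ⟨ψ.rangeRestrict, ψ.rangeRestrict_surjective⟩
  obtain ⟨g, hg⟩ := hf ⟨ψ x, ⟨x, rfl⟩⟩
  have h5 := hR n hn d hd (A ⧸ J) (ψ.range.subtype.comp f) g
  have h6 : ψ x = 1 := by
    have h7 : (ψ.range.subtype.comp f) g = ψ x := by
      change ((f g : ψ.range) : Matrix.GeneralLinearGroup (Fin d) (A ⧸ J)) = ψ x
      rw [hg]
    rw [← h7, h5]
  apply hJT _ (Finset.mem_singleton_self _)
  rw [← Ideal.Quotient.eq, ← hψ, h6, Units.val_one, Matrix.one_apply, Matrix.one_apply]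
  split_ifs <;> simp

end Pool.Agent.N702.CP.Asm2
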