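import Mathlib

/-!
# Project CP (helper702): linear representations in positive characteristic of the groups which have
the finite quotients of `SL_n(ℤ)`, `n ≥ 3` (page MP_a2a22c_al)
-/

set_option autoImplicit false

namespace Pool.Agent.N702.CP

/-- `SL_n(ℤ)` -/
abbrev SLZ (n : ℕ) := Matrix.SpecialLinearGroup (Fin n) ℤ

/-- the elementary matrix `1 + k E_ij` -/
def el {n : ℕ} (i j : Fin n) (h : i ≠ j) (k : ℤ) : SLZ n :=
  ⟨Matrix.transvection i j k, Matrix.det_transvection_of_ne i j h k⟩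

/-- CP/GEN: the elementary matrices generate `SL_n(ℤ)` -/
def S_GEN : Prop := ∀ n : ℕ,
  Subgroup.closure {g : SLZ n | ∃ (i j : Fin n) (h : i ≠ j) (k : ℤ), g = el i j h k} = ⊤

/-- CP/CEN: modulo the normal closure of the `M`-th powers of the elementary matrices the principal
congruence subgroup of level `M` is central -/
def S_CEN : Prop := ∀ n : ℕ, 3 ≤ n → ∀ (Q : Type) [Group Q] (f : SLZ n →* Q) (M : ℤ),
  (∀ (i j : Fin n) (h : i ≠ j), f (el i j h M) = 1) → ∀ g : SLZ n,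
  (∀ i j : Fin n, M ∣ (g : Matrix (Fin n) (Fin n) ℤ) i j - (1 : Matrix (Fin n) (Fin n) ℤ) i j) →
  ∀ x : SLZ n, f g * f x = f x * f g

/-- CP/BND: a bound for the finite quotients in which the elementary matrices have order dividing
`M` -/
def S_BND : Prop := ∀ n : ℕ, 3 ≤ n → ∀ M : ℕ, 1 ≤ M → ∃ B : ℕ,
  ∀ (Q : Type) [Group Q] [Finite Q] (f : SLZ n →* Q), Function.Surjective f →
  (∀ (i j : Fin n) (h : i ≠ j), f (el i j h (M : ℤ)) = 1) → Nat.card Q ≤ B

/-- CP/FLD: a central commutator has finite order over an algebraically closed field of positive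
characteristic -/
def S_FLD : Prop := ∀ (K : Type) [Field K] [IsAlgClosed K] (p : ℕ) [Fact p.Prime] [CharP K p]
  (d : ℕ) (X Y : (Matrix (Fin d) (Fin d) K)ˣ), Commute (X * Y * X⁻¹ * Y⁻¹) X →
  Commute (X * Y * X⁻¹ * Y⁻¹) Y → (X * Y * X⁻¹ * Y⁻¹) ^ (d.factorial * p ^ d) = 1

/-- CP/UNI: a uniform exponent for all commutative rings of characteristic `p` -/
def S_UNI : Prop := ∀ (p : ℕ) [Fact p.Prime] (d : ℕ), ∃ N : ℕ, 1 ≤ N ∧
  ∀ (R : Type) [CommRing R] [CharP R p] (X Y : (Matrix (Fin d) (Fin d) R)ˣ),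
  Commute (X * Y * X⁻¹ * Y⁻¹) X → Commute (X * Y * X⁻¹ * Y⁻¹) Y →
  (X * Y * X⁻¹ * Y⁻¹) ^ N = 1

/-- CP/SEP: points of a finitely generated ring of characteristic `p` are separated by finite
quotients -/
def S_SEP : Prop := ∀ (p : ℕ) [Fact p.Prime] (A : Type) [CommRing A] [Algebra (ZMod p) A]
  [Algebra.FiniteType (ZMod p) A] [Nontrivial A] (T : Finset A), 0 ∉ T →
  ∃ J : Ideal A, J ≠ ⊤ ∧ Finite (A ⧸ J) ∧ ∀ x ∈ T, x ∉ J

end Pool.Agent.N702.CP
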