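import Mathlib
import Pool.Agent.N702.CP.Stm

/-!
# Project CP (helper702), part FLD (helper218): central commutators over an algebraically closed
field of characteristic `p` have finite order
-/

set_option autoImplicit false

namespace Pool.Agent.N702.CP.FLDaux

open Module Module.End

variable {K V : Type*} [Field K] [AddCommGroup V] [Module K V] [FiniteDimensional K V]

/-- an eigenvalue of a central commutator is a root of unity -/
theorem eigen (u x y : End K V) (hx : Function.Injective x) (hy : Function.Injective y)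
    (h : u * y * x = x * y) (hux : Commute u x) (huy : Commute u y) (lam : K)
    (hl : u.HasEigenvalue lam) : lam ^ (finrank K V).factorial = 1 := by
  set E : Submodule K V := u.eigenspace lam with hE
  have hmem : ∀ v : V, v ∈ E ↔ u v = lam • v := fun v => mem_eigenspace_iff
  have hxE : ∀ v ∈ E, x v ∈ E := by
    intro v hv
    rw [hmem] at hv ⊢
    have := LinearMap.congr_fun hux.eq v
    simp only [Module.End.mul_apply] at this
    rw [this, hv, map_smul]
  have hyE : ∀ v ∈ E, y v ∈ E := by
    intro v hv
    rw [hmem] at hv ⊢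
    have := LinearMap.congr_fun huy.eq v
    simp only [Module.End.mul_apply] at this
    rw [this, hv, map_smul]
  set a : E →ₗ[K] E := x.restrict hxE with ha
  set b : E →ₗ[K] E := y.restrict hyE with hb
  have hab : a * b = lam • (b * a) := by
    refine LinearMap.ext fun v => Subtype.ext ?_
    have h1 := LinearMap.congr_fun h (v : V)
    simp only [Module.End.mul_apply] at h1
    have h2 : y (x (v : V)) ∈ E := hyE _ (hxE _ v.2)
    rw [hmem] at h2
    show x (y (v : V)) = lam • y (x (v : V))
    rw [← h1, h2]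
  have hdet : LinearMap.det a * LinearMap.det b =
      lam ^ finrank K E * (LinearMap.det b * LinearMap.det a) := by
    have := congrArg LinearMap.det hab
    rwa [map_mul, LinearMap.det_smul, map_mul] at this
  have ha0 : LinearMap.det a ≠ 0 := by
    have h1 : LinearMap.ker a = ⊥ := by
      rw [LinearMap.ker_eq_bot]
      intro v w hvw
      exact Subtype.ext (hx (congrArg Subtype.val hvw))
    exact ((LinearMap.isUnit_iff_isUnit_det a).1 ((LinearMap.isUnit_iff_ker_eq_bot a).2 h1)).ne_zero
  have hb0 : LinearMap.det b ≠ 0 := by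
    have h1 : LinearMap.ker b = ⊥ := by
      rw [LinearMap.ker_eq_bot]
      intro v w hvw
      exact Subtype.ext (hy (congrArg Subtype.val hvw))
    exact ((LinearMap.isUnit_iff_isUnit_det b).1 ((LinearMap.isUnit_iff_ker_eq_bot b).2 h1)).ne_zero
  have h1 : lam ^ finrank K E = 1 := by
    have h2 : LinearMap.det b * LinearMap.det a ≠ 0 := mul_ne_zero hb0 ha0
    have h3 : 1 * (LinearMap.det b * LinearMap.det a) =
        lam ^ finrank K E * (LinearMap.det b * LinearMap.det a) := by
      rw [← hdet, one_mul, mul_comm]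
    exact (mul_right_cancel₀ h2 h3).symm
  have hpos : 0 < finrank K E := by
    have : E ≠ ⊥ := hl
    exact Submodule.one_le_finrank_iff.2 this
  obtain ⟨c, hc⟩ := Nat.dvd_factorial hpos (Submodule.finrank_le E)
  rw [hc, pow_mul, h1, one_pow]

open Polynomial in
/-- powers of an endomorphism whose eigenvalues are roots of unity -/
theorem pow_one [IsAlgClosed K] (p : ℕ) [Fact p.Prime] [CharP K p] (u : End K V) (N d : ℕ)
    (hd : finrank K V = d) (hN : ∀ lam : K, u.HasEigenvalue lam → lam ^ N = 1) :
    u ^ (N * p ^ d) = 1 := by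
  have htop : ⨆ μ : K, u.maxGenEigenspace μ = ⊤ := iSup_maxGenEigenspace_eq_top u
  have hle : ⨆ μ : K, u.maxGenEigenspace μ ≤ LinearMap.ker (u ^ (N * p ^ d) - 1) := by
    refine iSup_le fun μ => ?_
    by_cases hμ : u.HasEigenvalue μ
    · intro v hv
      rw [maxGenEigenspace_eq_genEigenspace_finrank, mem_genEigenspace_nat, hd,
        LinearMap.mem_ker] at hv
      have hlt : d ≤ p ^ d := (Nat.lt_pow_self (Fact.out : p.Prime).one_lt).le
      have h1 : ((u - μ • 1) ^ (p ^ d)) v = 0 := by
        rw [← Nat.sub_add_cancel hlt, pow_add, Module.End.mul_apply, hv, map_zero]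
      have h2 : (u - μ • 1) ^ (p ^ d) = u ^ (p ^ d) - μ ^ (p ^ d) • 1 := by
        have h3 : ((X : K[X]) - C μ) ^ (p ^ d) = X ^ (p ^ d) - (C μ) ^ (p ^ d) :=
          sub_pow_char_pow (p := p) (X : K[X]) (C μ) d
        have h4 := congrArg (aeval u) h3
        simpa [Algebra.algebraMap_eq_smul_one, _root_.smul_pow] using h4
      have h3 : (u ^ (p ^ d)) v = μ ^ (p ^ d) • v := by
        rw [h2] at h1
        simpa [sub_eq_zero] using h1
      have h4 : ∀ m : ℕ, ((u ^ (p ^ d)) ^ m) v = (μ ^ (p ^ d)) ^ m • v := by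
        intro m
        induction m with
        | zero => simp
        | succ m ih => rw [pow_succ', Module.End.mul_apply, ih, map_smul, h3, smul_smul, ← pow_succ]
      rw [LinearMap.mem_ker, LinearMap.sub_apply, sub_eq_zero, mul_comm, pow_mul, h4,
        ← pow_mul, mul_comm, pow_mul, hN μ hμ, one_pow, one_smul]
      rfl
    · have h0 : u.maxGenEigenspace μ = ⊥ := by
        by_contra hne
        apply hμ
        rw [maxGenEigenspace_eq_genEigenspace_finrank] at hne
        exact hasEigenvalue_of_hasGenEigenvalue (k := finrank K V) hne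
      rw [h0]
      exact bot_le
  rw [htop, top_le_iff] at hle
  have := LinearMap.ker_eq_top.1 hle
  rwa [sub_eq_zero] at this

end Pool.Agent.N702.CP.FLDaux

namespace Pool.Agent.N702.CP

open Pool.Agent.N702.CP.FLDaux

theorem t_FLD : S_FLD := by
  intro K _ _ p _ _ d X Y hX hY
  set U : (Matrix (Fin d) (Fin d) K)ˣ := X * Y * X⁻¹ * Y⁻¹ with hU
  have hrel : U * Y * X = X * Y := by rw [hU]; group
  let φ : Matrix (Fin d) (Fin d) K ≃ₐ[K] Module.End K (Fin d → K) := Matrix.toLinAlgEquiv'
  have hinj : ∀ Z : (Matrix (Fin d) (Fin d) K)ˣ, Function.Injective (φ (Z : Matrix _ _ K)) := by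
    intro Z
    have h1 : φ ((Z⁻¹ : (Matrix (Fin d) (Fin d) K)ˣ) : Matrix _ _ K) * φ (Z : Matrix _ _ K) = 1 := by
      rw [← map_mul, Units.inv_mul, map_one]
    refine Function.LeftInverse.injective
      (g := φ ((Z⁻¹ : (Matrix (Fin d) (Fin d) K)ˣ) : Matrix _ _ K)) fun v => ?_
    exact LinearMap.congr_fun h1 v
  have h1 : φ (U : Matrix _ _ K) * φ (Y : Matrix _ _ K) * φ (X : Matrix _ _ K) =
      φ (X : Matrix _ _ K) * φ (Y : Matrix _ _ K) := by
    rw [← map_mul, ← map_mul, ← map_mul, ← Units.val_mul, ← Units.val_mul, hrel, Units.val_mul]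
  have h2 : Commute (φ (U : Matrix _ _ K)) (φ (X : Matrix _ _ K)) := by
    show _ * _ = _ * _
    rw [← map_mul, ← map_mul, ← Units.val_mul, hX.eq, Units.val_mul]
  have h3 : Commute (φ (U : Matrix _ _ K)) (φ (Y : Matrix _ _ K)) := by
    show _ * _ = _ * _
    rw [← map_mul, ← map_mul, ← Units.val_mul, hY.eq, Units.val_mul]
  have hfin : Module.finrank K (Fin d → K) = d := Module.finrank_fin_fun K
  have h4 := pow_one p (φ (U : Matrix _ _ K)) d.factorial d hfin (by
    intro lam hlam
    have := eigen _ _ _ (hinj X) (hinj Y) h1 h2 h3 lam hlam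
    rwa [hfin] at this)
  refine Units.ext ?_
  rw [Units.val_pow_eq_pow_val, Units.val_one]
  apply φ.injective
  rw [map_pow, h4, map_one]

end Pool.Agent.N702.CP
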