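import Pool.Agent.N702.CP.Stm2

/-!
# CP/RNG: representations of dimension less than `n` over finite commutative rings (helper377)
-/

set_option autoImplicit false

namespace Pool.Agent.N702.CP

namespace RngX

open Matrix

/-- commuting images of a group generated by commutators are trivial -/
lemma trivial_of_comm {n : ℕ} (hn : 3 ≤ n) {Q : Type*} [Group Q] (φ : SLZ n →* Q)
    (hφ : ∀ g h : SLZ n, φ g * φ h = φ h * φ g) (g : SLZ n) : φ g = 1 := by
  have hel : ∀ (i j : Fin n) (h : i ≠ j) (k : ℤ), φ (el i j h k) = 1 := by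
    intro i j h k
    obtain ⟨l, hl⟩ : ∃ l : Fin n, l ∉ ({i, j} : Finset (Fin n)) := by
      by_contra hcon
      push Not at hcon
      have h1 : (Finset.univ : Finset (Fin n)) ⊆ {i, j} := fun x _ => hcon x
      have h2 := Finset.card_le_card h1
      rw [Finset.card_univ, Fintype.card_fin, Finset.card_pair h] at h2
      omega
    simp only [Finset.mem_insert, Finset.mem_singleton, not_or] at hl
    have hil : i ≠ l := fun e => hl.1 e.symm
    have hlj : l ≠ j := hl.2
    have hc : el i l hil k * el l j hlj 1 = el i j h k * (el l j hlj 1 * el i l hil k) := by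
      apply Subtype.ext
      change transvection i l k * transvection l j 1 =
        transvection i j k * (transvection l j 1 * transvection i l k)
      unfold transvection
      simp only [add_mul, mul_add, one_mul, mul_one, single_mul_single_same,
        single_mul_single_of_ne, ne_eq, not_false_eq_true, h.symm, hlj.symm, add_zero]
      abel
    have h3 := congrArg φ hc
    rw [map_mul, map_mul, map_mul, hφ (el l j hlj 1) (el i l hil k)] at h3
    exact mul_eq_right.1 h3.symm
  have h4 : (⊤ : Subgroup (SLZ n)) ≤ φ.ker := by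
    rw [← t_GEN n, Subgroup.closure_le]
    rintro _ ⟨i, j, h, k, rfl⟩
    exact hel i j h k
  exact h4 (Subgroup.mem_top g)

variable {R : Type} [CommRing R] {n d : ℕ}

/-- all entries of `f g - 1` are in `I` -/
def In (I : Ideal R) (f : SLZ n →* Matrix.GeneralLinearGroup (Fin d) R) : Prop :=
  ∀ (g : SLZ n) (i j : Fin d),
    (f g : Matrix (Fin d) (Fin d) R) i j - (1 : Matrix (Fin d) (Fin d) R) i j ∈ I

lemma in_sq (hn : 3 ≤ n) {I : Ideal R} {f : SLZ n →* Matrix.GeneralLinearGroup (Fin d) R}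
    (h : In I f) : In (I ^ 2) f := by
  let π : Matrix (Fin d) (Fin d) R →+* Matrix (Fin d) (Fin d) (R ⧸ I ^ 2) :=
    (Ideal.Quotient.mk (I ^ 2)).mapMatrix
  let φ : SLZ n →* (Matrix (Fin d) (Fin d) (R ⧸ I ^ 2))ˣ := (Units.map (π : _ →* _)).comp f
  have hφ : ∀ g h : SLZ n, φ g * φ h = φ h * φ g := by
    intro g g'
    apply Units.ext
    change π (f g : Matrix (Fin d) (Fin d) R) * π (f g' : Matrix (Fin d) (Fin d) R) =
      π (f g' : Matrix (Fin d) (Fin d) R) * π (f g : Matrix (Fin d) (Fin d) R)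
    rw [← map_mul, ← map_mul]
    obtain ⟨a, ha⟩ : ∃ a : Matrix (Fin d) (Fin d) R, a = (f g : Matrix (Fin d) (Fin d) R) - 1 :=
      ⟨_, rfl⟩
    obtain ⟨b, hb⟩ : ∃ b : Matrix (Fin d) (Fin d) R, b = (f g' : Matrix (Fin d) (Fin d) R) - 1 :=
      ⟨_, rfl⟩
    have ha1 : (f g : Matrix (Fin d) (Fin d) R) = 1 + a := by rw [ha]; abel
    have hb1 : (f g' : Matrix (Fin d) (Fin d) R) = 1 + b := by rw [hb]; abel
    have ha2 : ∀ i j, a i j ∈ I := fun i j => by
      rw [ha]
      exact h g i j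
    have hb2 : ∀ i j, b i j ∈ I := fun i j => by
      rw [hb]
      exact h g' i j
    ext i j
    change Ideal.Quotient.mk (I ^ 2) _ = Ideal.Quotient.mk (I ^ 2) _
    rw [Ideal.Quotient.eq, ha1, hb1]
    have e1 : ((1 + a) * (1 + b)) i j - ((1 + b) * (1 + a)) i j =
        (a * b) i j - (b * a) i j := by
      have e2 : (1 + a) * (1 + b) - (1 + b) * (1 + a) = a * b - b * a := by noncomm_ring
      have e3 := congrFun (congrFun e2 i) j
      simpa using e3
    rw [e1, Matrix.mul_apply, Matrix.mul_apply, pow_two]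
    refine Ideal.sub_mem _ (Ideal.sum_mem _ fun k _ => Ideal.mul_mem_mul (ha2 i k) (hb2 k j))
      (Ideal.sum_mem _ fun k _ => Ideal.mul_mem_mul (hb2 i k) (ha2 k j))
  intro g i j
  have h1 := trivial_of_comm hn φ hφ g
  have h2 := congrArg (fun u : (Matrix (Fin d) (Fin d) (R ⧸ I ^ 2))ˣ =>
    (u : Matrix (Fin d) (Fin d) (R ⧸ I ^ 2)) i j) h1
  have h3 : Ideal.Quotient.mk (I ^ 2) ((f g : Matrix (Fin d) (Fin d) R) i j) =
      (1 : Matrix (Fin d) (Fin d) (R ⧸ I ^ 2)) i j := h2
  have h4 : (1 : Matrix (Fin d) (Fin d) (R ⧸ I ^ 2)) i j =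
      Ideal.Quotient.mk (I ^ 2) ((1 : Matrix (Fin d) (Fin d) R) i j) := by
    rw [Matrix.one_apply, Matrix.one_apply]
    split_ifs <;> simp
  rw [h4] at h3
  exact Ideal.Quotient.eq.1 h3

lemma in_prime (hT : S_TRV) (hn : 3 ≤ n) (hd : d < n)
    (f : SLZ n →* Matrix.GeneralLinearGroup (Fin d) R) (P : Ideal R) [P.IsPrime] : In P f := by
  let K := AlgebraicClosure (FractionRing (R ⧸ P))
  let φ : R →+* K := (algebraMap (FractionRing (R ⧸ P)) K).comp
    ((algebraMap (R ⧸ P) (FractionRing (R ⧸ P))).comp (Ideal.Quotient.mk P))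
  let π : Matrix (Fin d) (Fin d) R →+* Matrix (Fin d) (Fin d) K := φ.mapMatrix
  let φ1 : SLZ n →* (Matrix (Fin d) (Fin d) K)ˣ := (Units.map (π : _ →* _)).comp f
  let φ2 : Matrix (Fin d) (Fin d) K ≃ₐ[K] ((Fin d → K) →ₗ[K] (Fin d → K)) :=
    Matrix.toLinAlgEquiv'
  let φ3 : Matrix (Fin d) (Fin d) K →* Module.End K (Fin d → K) :=
    { toFun := fun M => φ2 M, map_one' := map_one φ2, map_mul' := map_mul φ2 }
  let ρ : SLZ n →* Module.End K (Fin d → K) :=
    φ3.comp ((Units.coeHom (Matrix (Fin d) (Fin d) K)).comp φ1)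
  intro g i j
  have h1 := hT n hn K (Fin d → K) (by rw [Module.finrank_fin_fun]; exact hd) ρ g
  have h2 : φ2 (π (f g : Matrix (Fin d) (Fin d) R)) = 1 := h1
  rw [← map_one φ2] at h2
  have h3 := φ2.injective h2
  have h4 := congrFun (congrFun h3 i) j
  have h5 : φ ((f g : Matrix (Fin d) (Fin d) R) i j) = (1 : Matrix (Fin d) (Fin d) K) i j := h4
  have h6 : (1 : Matrix (Fin d) (Fin d) K) i j = φ ((1 : Matrix (Fin d) (Fin d) R) i j) := by
    rw [Matrix.one_apply, Matrix.one_apply]
    split_ifs <;> simp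
  rw [h6] at h5
  have h7 : (algebraMap (FractionRing (R ⧸ P)) K) (algebraMap (R ⧸ P) (FractionRing (R ⧸ P))
      (Ideal.Quotient.mk P ((f g : Matrix (Fin d) (Fin d) R) i j))) =
      (algebraMap (FractionRing (R ⧸ P)) K) (algebraMap (R ⧸ P) (FractionRing (R ⧸ P))
      (Ideal.Quotient.mk P ((1 : Matrix (Fin d) (Fin d) R) i j))) := h5
  have h8 := IsFractionRing.injective (R ⧸ P) (FractionRing (R ⧸ P))
    ((algebraMap (FractionRing (R ⧸ P)) K).injective h7)
  exact Ideal.Quotient.eq.1 h8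

end RngX

/-- **CP/RNG** -/
theorem t_RNG (hT : S_TRV) : S_RNG := by
  intro n hn d hd R _ _ f g
  have h0 : RngX.In (nilradical R) f := by
    intro g i j
    rw [nilradical_eq_sInf, Ideal.mem_sInf]
    intro P hP
    have hP' : P.IsPrime := hP
    exact RngX.in_prime hT hn hd f P g i j
  have h1 : ∀ k : ℕ, RngX.In (nilradical R ^ (2 ^ k)) f := by
    intro k
    induction k with
    | zero => simpa using h0
    | succ k ih =>
      have := RngX.in_sq hn ih
      rwa [← pow_mul, ← pow_succ] at this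
  obtain ⟨m, hm⟩ := IsNoetherianRing.isNilpotent_nilradical R
  have h2 : nilradical R ^ (2 ^ m) ≤ ⊥ := by
    rw [← Ideal.zero_eq_bot, ← hm]
    exact Ideal.pow_le_pow_right (Nat.lt_two_pow_self).le
  apply Units.ext
  ext i j
  have h3 := h2 (h1 m g i j)
  rw [Ideal.mem_bot, sub_eq_zero] at h3
  exact h3

end Pool.Agent.N702.CP
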