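import Pool.Agent.N702.CP.Stm

/-!
# Project CP (helper702), leaf SEP: finite quotients separate points of a finitely generated ring
of characteristic `p` (by helper373)
-/

set_option autoImplicit false

namespace Pool.Agent.N702.CP

namespace SepAux

variable {p : ℕ} [Fact p.Prime] {A : Type} [CommRing A] [Algebra (ZMod p) A]
  [Algebra.FiniteType (ZMod p) A]

include p in
/-- the quotient by a maximal ideal is finite (Zariski's lemma) -/
theorem finite_max (m : Ideal A) [hm : m.IsMaximal] : Finite (A ⧸ m) := by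
  letI : Field (A ⧸ m) := Ideal.Quotient.field m
  have h2 : Module.Finite (ZMod p) (A ⧸ m) :=
    finite_of_finite_type_of_isJacobsonRing (ZMod p) (A ⧸ m)
  exact Module.finite_of_finite (ZMod p)

include p in
/-- a nonzero element is missed by an ideal of finite index -/
theorem one_elt (x : A) (hx : x ≠ 0) : ∃ J : Ideal A, J ≠ ⊤ ∧ Finite (A ⧸ J) ∧ x ∉ J := by
  haveI hN : IsNoetherianRing A := Algebra.FiniteType.isNoetherianRing (ZMod p) A
  -- the annihilator of x is proper
  have hann : (Ideal.span {x}).annihilator ≠ ⊤ := by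
    intro h
    have h1 : (1 : A) ∈ (Ideal.span {x}).annihilator := by rw [h]; exact Submodule.mem_top
    rw [Submodule.mem_annihilator] at h1
    have := h1 x (Ideal.mem_span_singleton_self x)
    rw [smul_eq_mul, one_mul] at this
    exact hx this
  obtain ⟨m, hm, hle⟩ := Ideal.exists_le_maximal _ hann
  haveI := hm
  haveI hfm : Finite (A ⧸ m) := finite_max (p := p) m
  have hk : ∃ k : ℕ, x ∉ m ^ k := by
    by_contra hcon
    push Not at hcon
    have hmem : x ∈ (⨅ i : ℕ, m ^ i • ⊤ : Submodule A A) := by
      rw [Submodule.mem_iInf]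
      intro i
      have h3 : (m ^ i • ⊤ : Submodule A A) = m ^ i := by
        rw [smul_eq_mul, Ideal.mul_top]
      rw [h3]
      exact hcon i
    obtain ⟨r, hr⟩ := (Ideal.mem_iInf_smul_pow_eq_bot_iff m x).1 hmem
    have h4 : (1 - (r : A)) ∈ (Ideal.span {x}).annihilator := by
      rw [Submodule.mem_annihilator]
      intro y hy
      obtain ⟨a, rfl⟩ := Ideal.mem_span_singleton'.1 hy
      rw [smul_eq_mul] at hr ⊢
      have : (1 - (r : A)) * (a * x) = a * (x - (r : A) * x) := by ring
      rw [this, hr, sub_self, mul_zero]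
    have h5 : (1 : A) ∈ m := by
      have := m.add_mem (hle h4) r.2
      rwa [sub_add_cancel] at this
    exact hm.ne_top ((Ideal.eq_top_iff_one m).2 h5)
  obtain ⟨k, hk⟩ := hk
  have hk0 : k ≠ 0 := by
    rintro rfl
    apply hk
    rw [pow_zero, Ideal.one_eq_top]
    exact Submodule.mem_top
  refine ⟨m ^ k, ?_, ?_, hk⟩
  · intro h
    apply hk
    rw [h]
    exact Submodule.mem_top
  · exact Ideal.finite_quotient_pow (IsNoetherian.noetherian m) k

end SepAux

theorem t_SEP : S_SEP := by
  intro p _ A _ _ _ _ T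
  classical
  induction T using Finset.induction_on with
  | empty =>
    intro _
    obtain ⟨m, hm⟩ := Ideal.exists_maximal A
    haveI := hm
    exact ⟨m, hm.ne_top, SepAux.finite_max (p := p) m, by simp⟩
  | insert a s ha ih =>
    intro h0
    rw [Finset.mem_insert, not_or] at h0
    obtain ⟨J1, hJ1, hf1, hx1⟩ := ih h0.2
    obtain ⟨J2, hJ2, hf2, hx2⟩ := SepAux.one_elt (p := p) a (fun h => h0.1 h.symm)
    refine ⟨J1 ⊓ J2, ?_, ?_, ?_⟩
    · intro h
      exact hJ1 (top_le_iff.1 (h ▸ inf_le_left))
    · let φ : A ⧸ (J1 ⊓ J2) → (A ⧸ J1) × (A ⧸ J2) := fun z =>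
        (Ideal.Quotient.factor (inf_le_left : J1 ⊓ J2 ≤ J1) z,
          Ideal.Quotient.factor (inf_le_right : J1 ⊓ J2 ≤ J2) z)
      have hφ : Function.Injective φ := by
        intro z w hzw
        obtain ⟨z, rfl⟩ := Ideal.Quotient.mk_surjective z
        obtain ⟨w, rfl⟩ := Ideal.Quotient.mk_surjective w
        have h1 := congrArg Prod.fst hzw
        have h2 := congrArg Prod.snd hzw
        simp only [φ, Ideal.Quotient.factor_mk] at h1 h2
        rw [Ideal.Quotient.eq] at h1 h2 ⊢
        exact ⟨h1, h2⟩
      exact Finite.of_injective φ hφ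
    · intro x hx
      rw [Finset.mem_insert] at hx
      rcases hx with rfl | hx
      · exact fun h => hx2 h.2
      · exact fun h => hx1 x hx h.1

end Pool.Agent.N702.CP
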