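import Pool.Agent.N702.CP.Stm2

/-!
# Project CP (helper702), leaf SEPZ: finite quotients separate points of a finitely generated
commutative ring (by helper439; the argument of the leaf SEP of helper373, over the integers)
-/

set_option autoImplicit false

namespace Pool.Agent.N702.CP

namespace SepzAux

theorem jac_int : IsJacobsonRing ℤ := by
  rw [isJacobsonRing_iff_prime_eq]
  intro P hP
  by_cases h : P = ⊥
  · subst h
    rw [eq_bot_iff]
    intro x hx
    rw [Ideal.mem_jacobson_bot] at hx
    have h1 := hx x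
    rw [Int.isUnit_iff] at h1
    rw [Ideal.mem_bot]
    rcases h1 with h1 | h1
    · have : x * x = 0 := by linarith
      exact mul_self_eq_zero.1 this
    · exfalso
      nlinarith [mul_self_nonneg x]
  · have : P.IsMaximal := IsPrime.to_maximal_ideal h
    exact Ideal.jacobson_eq_self_of_isMaximal

/-- residue fields of finitely generated commutative rings are finite -/
theorem finite_max (S : Type) [CommRing S] [Algebra.FiniteType ℤ S]
    (m : Ideal S) [hm : m.IsMaximal] : Finite (S ⧸ m) := by
  let F : Field (S ⧸ m) := Ideal.Quotient.field m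
  have h0 : Algebra.FiniteType ℤ (S ⧸ m) :=
    Algebra.FiniteType.of_surjective ((Ideal.Quotient.mkₐ S m).restrictScalars ℤ)
      Ideal.Quotient.mk_surjective
  have hJ : IsJacobsonRing ℤ := jac_int
  have h1 : Module.Finite ℤ (S ⧸ m) := finite_of_finite_type_of_isJacobsonRing ℤ (S ⧸ m)
  obtain ⟨p, hp⟩ := CharP.exists (S ⧸ m)
  rcases Nat.eq_zero_or_pos p with h2 | h2
  · exfalso
    subst h2
    have hc : CharZero (S ⧸ m) := CharP.charP_to_charZero (S ⧸ m)
    have h3 : Function.Injective (algebraMap ℤ (S ⧸ m)) := by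
      have : (algebraMap ℤ (S ⧸ m)) = Int.castRingHom (S ⧸ m) := RingHom.ext_int _ _
      rw [this]
      exact RingHom.injective_int _
    have hi : Algebra.IsIntegral ℤ (S ⧸ m) := Algebra.IsIntegral.of_finite ℤ (S ⧸ m)
    have h4 : IsField ℤ := isField_of_isIntegral_of_isField h3 (Field.toIsField _)
    exact Int.not_isField h4
  · apply Module.finite_of_fg_torsion (S ⧸ m)
    intro x
    refine ⟨⟨(p : ℤ), ?_⟩, ?_⟩
    · rw [mem_nonZeroDivisors_iff_ne_zero]
      exact_mod_cast h2.ne'
    · change (p : ℤ) • x = 0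
      rw [zsmul_eq_mul]
      simp

variable {A : Type} [CommRing A] [Algebra.FiniteType ℤ A]

/-- a nonzero element is missed by an ideal of finite index -/
theorem one_elt (x : A) (hx : x ≠ 0) : ∃ J : Ideal A, J ≠ ⊤ ∧ Finite (A ⧸ J) ∧ x ∉ J := by
  haveI hN : IsNoetherianRing A := Algebra.FiniteType.isNoetherianRing ℤ A
  -- the annihilator of x is proper
  have hann : (Ideal.span {x}).annihilator ≠ ⊤ := by
    intro h
    have h1 : (1 : A) ∈ (Ideal.span {x}).annihilator := by rw [h]; exact Submodule.mem_top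
    rw [Submodule.mem_annihilator] at h1
    have := h1 x (Ideal.mem_span_singleton_self x)
    rw [smul_eq_mul, one_mul] at this
    exact hx this
  obtain ⟨m, hm, hle⟩ := Ideal.exists_le_maximal _ hann
  haveI := hm
  haveI hfm : Finite (A ⧸ m) := finite_max A m
  have hk : ∃ k : ℕ, x ∉ m ^ k := by
    by_contra hcon
    push Not at hcon
    have hmem : x ∈ (⨅ i : ℕ, m ^ i • ⊤ : Submodule A A) := by
      rw [Submodule.mem_iInf]
      intro i
      have h3 : (m ^ i • ⊤ : Submodule A A) = m ^ i := by
        rw [smul_eq_mul, Ideal.mul_top]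
      rw [h3]
      exact hcon i
    obtain ⟨r, hr⟩ := (Ideal.mem_iInf_smul_pow_eq_bot_iff m x).1 hmem
    have h4 : (1 - (r : A)) ∈ (Ideal.span {x}).annihilator := by
      rw [Submodule.mem_annihilator]
      intro y hy
      obtain ⟨a, rfl⟩ := Ideal.mem_span_singleton'.1 hy
      rw [smul_eq_mul] at hr ⊢
      have : (1 - (r : A)) * (a * x) = a * (x - (r : A) * x) := by ring
      rw [this, hr, sub_self, mul_zero]
    have h5 : (1 : A) ∈ m := by
      have := m.add_mem (hle h4) r.2
      rwa [sub_add_cancel] at this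
    exact hm.ne_top ((Ideal.eq_top_iff_one m).2 h5)
  obtain ⟨k, hk⟩ := hk
  refine ⟨m ^ k, ?_, ?_, hk⟩
  · intro h
    apply hk
    rw [h]
    exact Submodule.mem_top
  · exact Ideal.finite_quotient_pow (IsNoetherian.noetherian m) k

end SepzAux

theorem t_SEPZ : S_SEPZ := by
  intro A _ _ _ T
  classical
  induction T using Finset.induction_on with
  | empty =>
    intro _
    obtain ⟨m, hm⟩ := Ideal.exists_maximal A
    haveI := hm
    exact ⟨m, hm.ne_top, SepzAux.finite_max A m, by simp⟩
  | insert a s ha ih =>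
    intro h0
    rw [Finset.mem_insert, not_or] at h0
    obtain ⟨J1, hJ1, hf1, hx1⟩ := ih h0.2
    obtain ⟨J2, hJ2, hf2, hx2⟩ := SepzAux.one_elt a (fun h => h0.1 h.symm)
    refine ⟨J1 ⊓ J2, ?_, ?_, ?_⟩
    · intro h
      exact hJ1 (top_le_iff.1 (h ▸ inf_le_left))
    · let φ : A ⧸ (J1 ⊓ J2) → (A ⧸ J1) × (A ⧸ J2) := fun z =>
        (Ideal.Quotient.factor (inf_le_left : J1 ⊓ J2 ≤ J1) z,
          Ideal.Quotient.factor (inf_le_right : J1 ⊓ J2 ≤ J2) z)
      have hφ : Function.Injective φ := by
        intro z w hzw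
        obtain ⟨z, rfl⟩ := Ideal.Quotient.mk_surjective z
        obtain ⟨w, rfl⟩ := Ideal.Quotient.mk_surjective w
        have h1 := congrArg Prod.fst hzw
        have h2 := congrArg Prod.snd hzw
        simp only [φ, Ideal.Quotient.factor_mk] at h1 h2
        rw [Ideal.Quotient.eq] at h1 h2 ⊢
        exact ⟨h1, h2⟩
      exact Finite.of_injective φ hφ
    · intro x hx
      rw [Finset.mem_insert] at hx
      rcases hx with rfl | hx
      · exact fun h => hx2 h.2
      · exact fun h => hx1 x hx h.1

end Pool.Agent.N702.CP
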