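import Pool.Agent.N702.CP.GEN

/-!
# Project CP (helper702), second part: representations of dimension less than `n` of the groups which
have the finite quotients of `SL_n(ℤ)`, `n ≥ 3` (page MP_a2a22c_al)

`GenX.bh n : SLZ n →* SLZ (n + 1)` (file GEN.lean) is the block embedding, `GenX.bh_el`.
-/

set_option autoImplicit false

namespace Pool.Agent.N702.CP

/-- CP/UNP: in representations of dimension less than `n` the elementary matrices are unipotent -/
def S_UNP : Prop := ∀ n : ℕ, 3 ≤ n → ∀ (K : Type) [Field K] [IsAlgClosed K] (V : Type)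
  [AddCommGroup V] [Module K V] [FiniteDimensional K V], Module.finrank K V < n →
  ∀ (ρ : SLZ n →* Module.End K V) (i j : Fin n) (h : i ≠ j), IsNilpotent (ρ (el i j h 1) - 1)

/-- CP/TRV: representations of dimension less than `n` are trivial -/
def S_TRV : Prop := ∀ n : ℕ, 3 ≤ n → ∀ (K : Type) [Field K] [IsAlgClosed K] (V : Type)
  [AddCommGroup V] [Module K V] [FiniteDimensional K V], Module.finrank K V < n →
  ∀ (ρ : SLZ n →* Module.End K V) (g : SLZ n), ρ g = 1

/-- CP/RNG: the same over finite commutative rings -/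
def S_RNG : Prop := ∀ n : ℕ, 3 ≤ n → ∀ d : ℕ, d < n → ∀ (R : Type) [CommRing R] [Finite R]
  (f : SLZ n →* Matrix.GeneralLinearGroup (Fin d) R) (g : SLZ n), f g = 1

/-- CP/SEPZ: points of a finitely generated ring are separated by finite quotients -/
def S_SEPZ : Prop := ∀ (A : Type) [CommRing A] [Algebra.FiniteType ℤ A] [Nontrivial A]
  (T : Finset A), 0 ∉ T → ∃ J : Ideal A, J ≠ ⊤ ∧ Finite (A ⧸ J) ∧ ∀ x ∈ T, x ∉ J

end Pool.Agent.N702.CP
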