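import Pool.Agent.N702.CP.Stm2
import Pool.Agent.N702.CP.Asm

/-!
# Project CP, part TRV (helper291): representations of `SL_n(ℤ)` of dimension less than `n` are
trivial
-/

set_option autoImplicit false

namespace Pool.Agent.N702.CP

namespace TrvX

open GenX

/-- the commutator relation without inverses -/
lemma rel {n : ℕ} (i l j : Fin n) (hij : i ≠ j) (hil : i ≠ l) (hlj : l ≠ j) :
    el i l hil 1 * el l j hlj 1 = el i j hij 1 * el l j hlj 1 * el i l hil 1 := by
  rw [Asm.el_comm i j l hij hil hlj]
  group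

variable {K : Type} [Field K] {V : Type} [AddCommGroup V] [Module K V]

lemma inv_l {n : ℕ} (ρ : SLZ n →* Module.End K V) (g : SLZ n) : ρ g⁻¹ * ρ g = 1 := by
  rw [← map_mul, inv_mul_cancel, map_one]

lemma inv_r {n : ℕ} (ρ : SLZ n →* Module.End K V) (g : SLZ n) : ρ g * ρ g⁻¹ = 1 := by
  rw [← map_mul, mul_inv_cancel, map_one]

lemma kill_left {n : ℕ} (ρ : SLZ n →* Module.End K V) (i l j : Fin n) (hij : i ≠ j) (hil : i ≠ l)
    (hlj : l ≠ j) (h1 : ρ (el i l hil 1) = 1) : ρ (el i j hij 1) = 1 := by
  have h2 := congrArg ρ (rel i l j hij hil hlj)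
  rw [map_mul, map_mul, map_mul, h1, one_mul, mul_one] at h2
  have h3 := congrArg (fun t => t * ρ (el l j hlj 1)⁻¹) h2
  simp only [mul_assoc, inv_r, mul_one] at h3
  exact h3.symm

lemma kill_right {n : ℕ} (ρ : SLZ n →* Module.End K V) (i l j : Fin n) (hij : i ≠ j) (hil : i ≠ l)
    (hlj : l ≠ j) (h1 : ρ (el l j hlj 1) = 1) : ρ (el i j hij 1) = 1 := by
  have h2 := congrArg ρ (rel i l j hij hil hlj)
  rw [map_mul, map_mul, map_mul, h1, mul_one, mul_one] at h2
  have h3 := congrArg (fun t => t * ρ (el i l hil 1)⁻¹) h2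
  simp only [mul_assoc, inv_r, mul_one] at h3
  exact h3.symm

/-- (A) -/
lemma all_one {m : ℕ} (hm : 2 ≤ m) (ρ : SLZ (m + 1) →* Module.End K V)
    (h0 : ∀ (b : Fin m), ρ (el 0 b.succ (Fin.succ_ne_zero b).symm 1) = 1) :
    ∀ (i j : Fin (m + 1)) (h : i ≠ j), ρ (el i j h 1) = 1 := by
  have h1 : ∀ (j : Fin (m + 1)) (h : 0 ≠ j), ρ (el 0 j h 1) = 1 := by
    intro j h
    obtain ⟨b, rfl⟩ := Fin.exists_succ_eq.2 h.symm
    exact h0 b
  have h2 : ∀ (i j : Fin (m + 1)) (h : i ≠ j), j ≠ 0 → ρ (el i j h 1) = 1 := by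
    intro i j h hj
    by_cases hi : i = 0
    · subst hi
      exact h1 j h
    · exact kill_right ρ i 0 j h hi hj.symm (h1 j hj.symm)
  intro i j h
  by_cases hj : j = 0
  · subst hj
    obtain ⟨l, hl⟩ : ∃ l : Fin (m + 1), l ≠ i ∧ l ≠ 0 := by
      by_contra hc
      push Not at hc
      have h3 : (Finset.univ : Finset (Fin (m + 1))) ⊆ {i, 0} := by
        intro l _
        by_cases e : l = i
        · simp [e]
        · simp [hc l e]
      have h4 := Finset.card_le_card h3
      have h5 : ({i, 0} : Finset (Fin (m + 1))).card ≤ 2 := Finset.card_le_two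
      rw [Finset.card_univ, Fintype.card_fin] at h4
      omega
    exact kill_left ρ i l 0 h hl.1.symm hl.2 (h2 i l hl.1.symm hl.2)
  · exact h2 i j h hj

/-- the vectors fixed by the first row matrices -/
def W {m : ℕ} (ρ : SLZ (m + 1) →* Module.End K V) : Submodule K V where
  carrier := {v | ∀ r : Fin m → ℤ, ρ (bk r 1) v = v}
  zero_mem' := fun r => map_zero _
  add_mem' := by
    intro v w hv hw r
    rw [map_add, hv r, hw r]
  smul_mem' := by
    intro c v hv r
    rw [map_smul, hv r]

lemma mem_W {m : ℕ} (ρ : SLZ (m + 1) →* Module.End K V) (v : V) :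
    v ∈ W ρ ↔ ∀ r : Fin m → ℤ, ρ (bk r 1) v = v := Iff.rfl

lemma W_stable {m : ℕ} (ρ : SLZ (m + 1) →* Module.End K V) (g : SLZ m) (v : V) (hv : v ∈ W ρ) :
    ρ (bh m g) v ∈ W ρ := by
  intro r
  have h1 : bk r 1 * bh m g = bh m g * bk (Matrix.vecMul r (g : Matrix (Fin m) (Fin m) ℤ)) 1 := by
    show bk r 1 * bk 0 g = bk 0 g * bk (Matrix.vecMul r (g : Matrix (Fin m) (Fin m) ℤ)) 1
    rw [bk_mul, bk_mul, Matrix.zero_vecMul, add_zero, zero_add, mul_one, one_mul]
  have h2 := congrArg ρ h1
  rw [map_mul, map_mul] at h2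
  have h3 := LinearMap.congr_fun h2 v
  rw [Module.End.mul_apply, Module.End.mul_apply, hv _] at h3
  exact h3

/-- a vector fixed by the elementary matrices of the first row is in `W` -/
lemma mem_W_of {m : ℕ} (ρ : SLZ (m + 1) →* Module.End K V) (v : V)
    (hv : ∀ b : Fin m, ρ (el 0 b.succ (Fin.succ_ne_zero b).symm 1) v = v) : v ∈ W ρ := by
  intro r
  let S : AddSubgroup (Fin m → ℤ) :=
    { carrier := {r | ρ (bk r 1) v = v}
      zero_mem' := by
        show ρ (bk (0 : Fin m → ℤ) 1) v = v
        rw [bk_one, map_one]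
        rfl
      add_mem' := by
        intro r s hr hs
        show ρ (bk (r + s) 1) v = v
        have h1 : bk (r + s) (1 : SLZ m) = bk s 1 * bk r 1 := by
          rw [bk_mul, Matrix.SpecialLinearGroup.coe_one, Matrix.vecMul_one, one_mul]
        rw [h1, map_mul, Module.End.mul_apply, show ρ (bk r 1) v = v from hr]
        exact hs
      neg_mem' := by
        intro r hr
        show ρ (bk (-r) 1) v = v
        have h1 : bk (-r) (1 : SLZ m) * bk r 1 = 1 := by
          rw [bk_mul, Matrix.SpecialLinearGroup.coe_one, Matrix.vecMul_one, one_mul,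
            add_neg_cancel, bk_one]
        have h2 := congrArg ρ h1
        rw [map_mul, map_one] at h2
        have h3 := LinearMap.congr_fun h2 v
        rw [Module.End.mul_apply, show ρ (bk r 1) v = v from hr] at h3
        exact h3 }
  have h1 : ∀ b : Fin m, Pi.single b (1 : ℤ) ∈ S := by
    intro b
    show ρ (bk (Pi.single b 1) 1) v = v
    rw [row_single]
    exact hv b
  have h2 : r ∈ S := by
    have e : r = ∑ b, (r b) • (Pi.single b (1 : ℤ) : Fin m → ℤ) := by
      funext c
      simp [Finset.sum_apply, Pi.single_apply]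
    rw [e]
    exact sum_mem fun b _ => S.zsmul_mem (h1 b) _
  exact h2

lemma comm_row {m : ℕ} (ρ : SLZ (m + 1) →* Module.End K V) (r s : Fin m → ℤ) :
    ρ (bk r 1) * ρ (bk s 1) = ρ (bk s 1) * ρ (bk r 1) := by
  rw [← map_mul, ← map_mul, bk_mul, bk_mul, Matrix.SpecialLinearGroup.coe_one, Matrix.vecMul_one,
    Matrix.vecMul_one, add_comm r s]

/-- (B) -/
lemma exists_fixed {m : ℕ} (ρ : SLZ (m + 1) →* Module.End K V)
    (hN : ∀ (b : Fin m), IsNilpotent (ρ (el 0 b.succ (Fin.succ_ne_zero b).symm 1) - 1))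
    (v0 : V) (hv0 : v0 ≠ 0) : ∃ v ∈ W ρ, v ≠ 0 := by
  classical
  have key : ∀ S : Finset (Fin m), ∃ v : V, v ≠ 0 ∧
      ∀ b ∈ S, ρ (bk (Pi.single b 1) 1) v = v := by
    intro S
    induction S using Finset.induction_on with
    | empty => exact ⟨v0, hv0, fun b hb => absurd hb (Finset.notMem_empty b)⟩
    | insert c S hc ih =>
      obtain ⟨v, hv, hf⟩ := ih
      set D : Module.End K V := ρ (bk (Pi.single c 1) 1) - 1 with hD
      have hDn : ∃ k : ℕ, (D ^ k) v = 0 := by
        obtain ⟨k, hk⟩ := hN c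
        rw [← row_single] at hk
        exact ⟨k, by rw [hD, hk]; rfl⟩
      have hk0 : Nat.find hDn ≠ 0 := by
        intro e
        have := Nat.find_spec hDn
        rw [e, pow_zero] at this
        exact hv this
      obtain ⟨k, hk⟩ := Nat.exists_eq_succ_of_ne_zero hk0
      have hs := Nat.find_spec hDn
      rw [hk, Nat.succ_eq_add_one, pow_succ', Module.End.mul_apply] at hs
      have hm : (D ^ k) v ≠ 0 := Nat.find_min hDn (by omega)
      refine ⟨(D ^ k) v, hm, ?_⟩
      intro b hb
      rcases Finset.mem_insert.1 hb with rfl | hb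
      · rw [hD, LinearMap.sub_apply, Module.End.one_apply] at hs
        rw [hD]
        exact sub_eq_zero.1 hs
      · have hc1 : Commute (ρ (bk (Pi.single b 1) 1)) D := by
          rw [hD]
          exact Commute.sub_right (comm_row ρ _ _) (Commute.one_right _)
        have hc2 : Commute (ρ (bk (Pi.single b 1) 1)) (D ^ k) := hc1.pow_right k
        have h3 := LinearMap.congr_fun hc2.eq v
        rw [Module.End.mul_apply, Module.End.mul_apply, hf b hb] at h3
        exact h3
  obtain ⟨v, hv, hf⟩ := key Finset.univ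
  refine ⟨v, mem_W_of ρ v fun b => ?_, hv⟩
  rw [← row_single]
  exact hf b (Finset.mem_univ b)

/-- a nilpotent operator of a space of dimension at most one is zero -/
lemma nil_one [FiniteDimensional K V] (h : Module.finrank K V ≤ 1) (N : Module.End K V)
    (hN : IsNilpotent N) : N = 0 := by
  obtain ⟨v, hv⟩ := finrank_le_one_iff.1 h
  obtain ⟨c, hc⟩ := hv (N v)
  obtain ⟨k, hk⟩ := hN
  have h1 : ∀ k : ℕ, (N ^ k) v = c ^ k • v := by
    intro k
    induction k with
    | zero => simp
    | succ k ih => rw [pow_succ', Module.End.mul_apply, ih, map_smul, ← hc, smul_smul, pow_succ]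
  have h2 : c ^ k • v = 0 := by
    rw [← h1, hk]
    rfl
  have h3 : N v = 0 := by
    rcases smul_eq_zero.1 h2 with h | h
    · rw [← hc, eq_zero_of_pow_eq_zero h, zero_smul]
    · rw [h, map_zero]
  ext w
  obtain ⟨d, rfl⟩ := hv w
  rw [map_smul, h3, smul_zero]
  rfl

/-- the action on a stable subspace -/
def resW {m : ℕ} (ρ : SLZ (m + 1) →* Module.End K V) : SLZ m →* Module.End K (W ρ) where
  toFun g := (ρ (bh m g)).restrict (W_stable ρ g)
  map_one' := by
    ext v
    rw [LinearMap.coe_restrict_apply, map_one, map_one]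
    rfl
  map_mul' g h := by
    ext v
    rw [LinearMap.coe_restrict_apply, map_mul, map_mul]
    rfl

/-- the action on the quotient -/
def quoW {m : ℕ} (ρ : SLZ (m + 1) →* Module.End K V) : SLZ m →* Module.End K (V ⧸ W ρ) where
  toFun g := (W ρ).mapQ (W ρ) (ρ (bh m g)) (W_stable ρ g)
  map_one' := by
    ext v
    simp
  map_mul' g h := by
    ext v
    simp

/-- the induction -/
theorem core (m : ℕ) (hm : 2 ≤ m) : ∀ (V : Type) [AddCommGroup V] [Module K V]
    [FiniteDimensional K V], Module.finrank K V < m → ∀ ρ : SLZ m →* Module.End K V,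
    (∀ (i j : Fin m) (h : i ≠ j), IsNilpotent (ρ (el i j h 1) - 1)) →
    ∀ (i j : Fin m) (h : i ≠ j), ρ (el i j h 1) = 1 := by
  induction m, hm using Nat.le_induction with
  | base =>
    intro V _ _ _ hV ρ hN i j h
    exact sub_eq_zero.1 (nil_one (by omega) _ (hN i j h))
  | succ m hm ih =>
    intro V _ _ _ hV ρ hN
    by_cases hsub : ∀ v : V, v = 0
    · intro i j h
      ext v
      rw [hsub v, map_zero, map_zero]
    push Not at hsub
    obtain ⟨v0, hv0⟩ := hsub
    obtain ⟨v1, hv1, hv1'⟩ := exists_fixed ρ (fun b => hN _ _ _) v0 hv0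
    apply all_one hm ρ
    by_cases hW : W ρ = ⊤
    · intro b
      ext v
      have hv : v ∈ W ρ := by rw [hW]; exact Submodule.mem_top
      have := hv (Pi.single b 1)
      rw [row_single] at this
      exact this
    · have hWlt : Module.finrank K (W ρ) < Module.finrank K V :=
        Submodule.finrank_lt hW
      have hWpos : 0 < Module.finrank K (W ρ) := by
        have hnt : Nontrivial (W ρ) := ⟨⟨⟨v1, hv1⟩, 0, by
          intro e
          exact hv1' (congrArg Subtype.val e)⟩⟩
        exact Module.finrank_pos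
      have hQ : Module.finrank K (V ⧸ W ρ) + Module.finrank K (W ρ) = Module.finrank K V :=
        Submodule.finrank_quotient_add_finrank _
      -- the actions on the subspace and the quotient are trivial
      have hR1 : ∀ (i j : Fin m) (h : i ≠ j), resW ρ (el i j h 1) = 1 := by
        apply ih (W ρ) (by omega) (resW ρ)
        intro i j h
        obtain ⟨k, hk⟩ := hN i.succ j.succ (fun e => h (Fin.succ_inj.1 e))
        rw [← bh_el h] at hk
        refine ⟨k, ?_⟩
        have h1 : ∀ (k : ℕ) (w : W ρ), (((resW ρ (el i j h 1) - 1) ^ k) w : V) =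
            ((ρ (bh m (el i j h 1)) - 1) ^ k) (w : V) := by
          intro k
          induction k with
          | zero => intro w; simp
          | succ k ihk =>
            intro w
            rw [pow_succ, pow_succ, Module.End.mul_apply, Module.End.mul_apply, ihk]
            rfl
        ext w
        rw [h1, hk]
        rfl
      have hR2 : ∀ (i j : Fin m) (h : i ≠ j), quoW ρ (el i j h 1) = 1 := by
        apply ih (V ⧸ W ρ) (by omega) (quoW ρ)
        intro i j h
        obtain ⟨k, hk⟩ := hN i.succ j.succ (fun e => h (Fin.succ_inj.1 e))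
        rw [← bh_el h] at hk
        refine ⟨k, ?_⟩
        have h1 : ∀ (k : ℕ) (w : V), ((quoW ρ (el i j h 1) - 1) ^ k) ((W ρ).mkQ w) =
            (W ρ).mkQ (((ρ (bh m (el i j h 1)) - 1) ^ k) w) := by
          intro k
          induction k with
          | zero => intro w; simp
          | succ k ihk =>
            intro w
            rw [pow_succ, pow_succ, Module.End.mul_apply, Module.End.mul_apply, ← ihk]
            congr 1
        ext w
        rw [LinearMap.comp_apply, h1, hk]
        simp
      have hA1 : ∀ (i j : Fin m) (h : i ≠ j) (w : V), w ∈ W ρ →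
          ρ (el i.succ j.succ (fun e => h (Fin.succ_inj.1 e)) 1) w = w := by
        intro i j h w hw
        have h1 := LinearMap.congr_fun (hR1 i j h) ⟨w, hw⟩
        have h2 := congrArg Subtype.val h1
        rw [← bh_el h]
        exact h2
      have hA2 : ∀ (i j : Fin m) (h : i ≠ j) (w : V),
          ρ (el i.succ j.succ (fun e => h (Fin.succ_inj.1 e)) 1) w - w ∈ W ρ := by
        intro i j h w
        have h1 := LinearMap.congr_fun (hR2 i j h) ((W ρ).mkQ w)
        rw [← bh_el h]
        rw [← Submodule.ker_mkQ (W ρ), LinearMap.mem_ker, map_sub, sub_eq_zero]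
        exact h1
      have hF : ∀ (b : Fin m) (w : V), w ∈ W ρ →
          ρ (el 0 b.succ (Fin.succ_ne_zero b).symm 1) w = w := by
        intro b w hw
        have := hw (Pi.single b 1)
        rw [row_single] at this
        exact this
      -- the main computation
      have hmain : ∀ (a b : Fin m) (h : a ≠ b) (v : V),
          ρ (el 0 b.succ (Fin.succ_ne_zero b).symm 1)
            (ρ (el 0 a.succ (Fin.succ_ne_zero a).symm 1) v) -
            ρ (el 0 a.succ (Fin.succ_ne_zero a).symm 1) v =
          (ρ (el a.succ b.succ (fun e => h (Fin.succ_inj.1 e)) 1) v - v) -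
          (ρ (el a.succ b.succ (fun e => h (Fin.succ_inj.1 e)) 1)
            (ρ (el 0 a.succ (Fin.succ_ne_zero a).symm 1) v) -
            ρ (el 0 a.succ (Fin.succ_ne_zero a).symm 1) v) := by
        intro a b h v
        have h1 := congrArg ρ (rel 0 a.succ b.succ (Fin.succ_ne_zero b).symm
          (Fin.succ_ne_zero a).symm (fun e => h (Fin.succ_inj.1 e)))
        rw [map_mul, map_mul, map_mul] at h1
        have h2 := LinearMap.congr_fun h1 v
        simp only [Module.End.mul_apply] at h2
        set Fa := ρ (el 0 a.succ (Fin.succ_ne_zero a).symm 1)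
        set Fb := ρ (el 0 b.succ (Fin.succ_ne_zero b).symm 1)
        set x := ρ (el a.succ b.succ (fun e => h (Fin.succ_inj.1 e)) 1)
        have h3 : Fa (x v - v) = x v - v := hF a _ (hA2 a b h v)
        have h4 : Fb (x (Fa v) - Fa v) = x (Fa v) - Fa v := hF b _ (hA2 a b h _)
        rw [map_sub] at h3 h4
        have h5 : Fa (x v) = x v - v + Fa v := by rw [← h3]; abel
        have h6 : Fb (x (Fa v)) = x (Fa v) - Fa v + Fb (Fa v) := by rw [← h4]; abel
        rw [h5, h6] at h2
        have h7 : Fb (Fa v) = x v - v + Fa v - (x (Fa v) - Fa v) := by rw [h2]; abel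
        rw [h7]
        abel
      have hsurj : ∀ (a : Fin m) (u : V), ∃ v : V,
          ρ (el 0 a.succ (Fin.succ_ne_zero a).symm 1) v = u := by
        intro a u
        refine ⟨ρ (el 0 a.succ (Fin.succ_ne_zero a).symm 1)⁻¹ u, ?_⟩
        have h1 := LinearMap.congr_fun (inv_r ρ (el 0 a.succ (Fin.succ_ne_zero a).symm 1)) u
        exact h1
      have hne : ∀ b : Fin m, ∃ a : Fin m, a ≠ b := by
        intro b
        have : Nontrivial (Fin m) := Fin.nontrivial_iff_two_le.2 hm
        exact exists_ne b
      have hFW : ∀ (b : Fin m) (u : V),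
          ρ (el 0 b.succ (Fin.succ_ne_zero b).symm 1) u - u ∈ W ρ := by
        intro b u
        obtain ⟨a, hab⟩ := hne b
        obtain ⟨v, rfl⟩ := hsurj a u
        rw [hmain a b hab v]
        exact sub_mem (hA2 a b hab _) (hA2 a b hab _)
      intro b
      ext u
      obtain ⟨a, hab⟩ := hne b
      obtain ⟨v, rfl⟩ := hsurj a u
      have h1 := hmain a b hab v
      have h2 := hA1 a b hab _ (hFW a v)
      rw [map_sub] at h2
      have h3 : (ρ (el a.succ b.succ (fun e => hab (Fin.succ_inj.1 e)) 1) v - v) -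
          (ρ (el a.succ b.succ (fun e => hab (Fin.succ_inj.1 e)) 1)
            (ρ (el 0 a.succ (Fin.succ_ne_zero a).symm 1) v) -
            ρ (el 0 a.succ (Fin.succ_ne_zero a).symm 1) v) = 0 := by
        rw [sub_sub_sub_comm, ← neg_sub (ρ (el a.succ b.succ (fun e => hab (Fin.succ_inj.1 e)) 1)
          (ρ (el 0 a.succ (Fin.succ_ne_zero a).symm 1) v)), h2]
        abel
      rw [h3] at h1
      exact sub_eq_zero.1 h1

end TrvX

/-- representations of `SL_n(ℤ)` of dimension less than `n` are trivial -/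
theorem t_TRV (hU : S_UNP) : S_TRV := by
  intro n hn K _ _ V _ _ _ hV ρ g
  have h1 := TrvX.core n (by omega) V hV ρ (fun i j h => hU n hn K V hV ρ i j h)
  have h2 : Subgroup.closure {g : SLZ n | ∃ (i j : Fin n) (h : i ≠ j) (k : ℤ), g = el i j h k} ≤
      ρ.ker := by
    refine (Subgroup.closure_le _).2 ?_
    rintro _ ⟨i, j, h, k, rfl⟩
    have h3 : el i j h 1 ∈ ρ.ker := MonoidHom.mem_ker.2 (h1 i j h)
    have h4 : ∀ N : ℕ, el i j h (N : ℤ) ∈ ρ.ker := by
      intro N
      have h5 := Subgroup.pow_mem _ h3 N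
      rw [Asm.el_pow, mul_one] at h5
      exact h5
    rcases Int.eq_nat_or_neg k with ⟨N, rfl | rfl⟩
    · exact h4 N
    · show el i j h (-(N : ℤ)) ∈ ρ.ker
      rw [Asm.el_neg]
      exact Subgroup.inv_mem _ (h4 N)
  rw [t_GEN n] at h2
  exact MonoidHom.mem_ker.1 (h2 (Subgroup.mem_top g))

end Pool.Agent.N702.CP
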