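import Mathlib
import Pool.Agent.N702.CP.Stm

/-!
# Project CP: a uniform exponent by the universal ring (CP/UNI)
-/

set_option autoImplicit false

namespace Pool.Agent.N702.CP

namespace UniX

open MvPolynomial

/-- the commutator of a quadruple `X, X', Y, Y'` -/
def com {B : Type} [CommRing B] {d : ℕ} (M : Fin 4 → Matrix (Fin d) (Fin d) B) :
    Matrix (Fin d) (Fin d) B := M 0 * M 2 * M 1 * M 3

/-- the relations -/
def Rels {B : Type} [CommRing B] {d : ℕ} (M : Fin 4 → Matrix (Fin d) (Fin d) B) : Prop :=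
  M 0 * M 1 = 1 ∧ M 1 * M 0 = 1 ∧ M 2 * M 3 = 1 ∧ M 3 * M 2 = 1 ∧
    com M * M 0 = M 0 * com M ∧ com M * M 2 = M 2 * com M

variable (p d : ℕ)

/-- the polynomial ring -/
abbrev S := MvPolynomial (Fin 4 × Fin d × Fin d) (ZMod p)

/-- the generic matrices -/
noncomputable def G (k : Fin 4) : Matrix (Fin d) (Fin d) (S p d) := fun i j => X (k, i, j)

/-- the relations between the generic matrices -/
noncomputable def rel : Fin 6 → Matrix (Fin d) (Fin d) (S p d) :=
  ![G p d 0 * G p d 1 - 1, G p d 1 * G p d 0 - 1, G p d 2 * G p d 3 - 1, G p d 3 * G p d 2 - 1,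
    com (G p d) * G p d 0 - G p d 0 * com (G p d), com (G p d) * G p d 2 - G p d 2 * com (G p d)]

/-- the ideal of the relations -/
noncomputable def I : Ideal (S p d) :=
  Ideal.span (Set.range fun x : Fin 6 × Fin d × Fin d => rel p d x.1 x.2.1 x.2.2)

/-- the universal ring -/
abbrev A := S p d ⧸ I p d

variable {p d}

theorem com_map {B C : Type} [CommRing B] [CommRing C] (φ : B →+* C)
    (M : Fin 4 → Matrix (Fin d) (Fin d) B) :
    com (fun k => φ.mapMatrix (M k)) = φ.mapMatrix (com M) := by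
  simp only [com, map_mul]

theorem rel_iff {B : Type} [CommRing B] (φ : S p d →+* B) :
    (∀ k, φ.mapMatrix (rel p d k) = 0) ↔ Rels (fun k => φ.mapMatrix (G p d k)) := by
  constructor
  · intro h
    have h0 : φ.mapMatrix (G p d 0 * G p d 1 - 1) = 0 := h 0
    have h1 : φ.mapMatrix (G p d 1 * G p d 0 - 1) = 0 := h 1
    have h2 : φ.mapMatrix (G p d 2 * G p d 3 - 1) = 0 := h 2
    have h3 : φ.mapMatrix (G p d 3 * G p d 2 - 1) = 0 := h 3
    have h4 : φ.mapMatrix (com (G p d) * G p d 0 - G p d 0 * com (G p d)) = 0 := h 4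
    have h5 : φ.mapMatrix (com (G p d) * G p d 2 - G p d 2 * com (G p d)) = 0 := h 5
    rw [map_sub, map_mul, map_one, sub_eq_zero] at h0 h1 h2 h3
    rw [map_sub, map_mul, map_mul, sub_eq_zero, ← com_map] at h4 h5
    exact ⟨h0, h1, h2, h3, h4, h5⟩
  · rintro ⟨h0, h1, h2, h3, h4, h5⟩ k
    fin_cases k
    · change φ.mapMatrix (G p d 0 * G p d 1 - 1) = 0
      rw [map_sub, map_mul, map_one, sub_eq_zero]
      exact h0
    · change φ.mapMatrix (G p d 1 * G p d 0 - 1) = 0
      rw [map_sub, map_mul, map_one, sub_eq_zero]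
      exact h1
    · change φ.mapMatrix (G p d 2 * G p d 3 - 1) = 0
      rw [map_sub, map_mul, map_one, sub_eq_zero]
      exact h2
    · change φ.mapMatrix (G p d 3 * G p d 2 - 1) = 0
      rw [map_sub, map_mul, map_one, sub_eq_zero]
      exact h3
    · change φ.mapMatrix (com (G p d) * G p d 0 - G p d 0 * com (G p d)) = 0
      rw [map_sub, map_mul, map_mul, sub_eq_zero, ← com_map]
      exact h4
    · change φ.mapMatrix (com (G p d) * G p d 2 - G p d 2 * com (G p d)) = 0
      rw [map_sub, map_mul, map_mul, sub_eq_zero, ← com_map]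
      exact h5

theorem kill_iff {B : Type} [CommRing B] (φ : S p d →+* B) :
    (∀ s ∈ I p d, φ s = 0) ↔ ∀ k, φ.mapMatrix (rel p d k) = 0 := by
  constructor
  · intro h k
    ext i j
    exact h _ (Ideal.subset_span ⟨(k, i, j), rfl⟩)
  · intro h
    have h1 : I p d ≤ RingHom.ker φ := by
      refine Ideal.span_le.2 ?_
      rintro _ ⟨⟨k, i, j⟩, rfl⟩
      have h2 := congrFun (congrFun (h k) i) j
      exact h2
    exact fun s hs => h1 hs

/-- the universal matrices -/
noncomputable def g (p d : ℕ) (k : Fin 4) : Matrix (Fin d) (Fin d) (A p d) :=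
  (Ideal.Quotient.mk (I p d)).mapMatrix (G p d k)

theorem g_rels : Rels (g p d) :=
  (rel_iff (Ideal.Quotient.mk (I p d))).1 ((kill_iff _).1 fun s hs =>
    Ideal.Quotient.eq_zero_iff_mem.2 hs)

theorem rels_map {B C : Type} [CommRing B] [CommRing C] (φ : B →+* C)
    {M : Fin 4 → Matrix (Fin d) (Fin d) B} (h : Rels M) : Rels (fun k => φ.mapMatrix (M k)) := by
  obtain ⟨h0, h1, h2, h3, h4, h5⟩ := h
  refine ⟨?_, ?_, ?_, ?_, ?_, ?_⟩
  · rw [← map_mul, h0, map_one]
  · rw [← map_mul, h1, map_one]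
  · rw [← map_mul, h2, map_one]
  · rw [← map_mul, h3, map_one]
  · rw [com_map, ← map_mul, h4, map_mul]
  · rw [com_map, ← map_mul, h5, map_mul]

theorem fld (hF : S_FLD) {K : Type} [Field K] [IsAlgClosed K] [Fact p.Prime] [CharP K p]
    {M : Fin 4 → Matrix (Fin d) (Fin d) K} (h : Rels M) :
    com M ^ (d.factorial * p ^ d) = 1 := by
  obtain ⟨h0, h1, h2, h3, h4, h5⟩ := h
  have := hF K p d ⟨M 0, M 1, h0, h1⟩ ⟨M 2, M 3, h2, h3⟩ (Units.ext h4) (Units.ext h5)
  have h6 := congrArg Units.val this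
  rw [Units.val_pow_eq_pow_val, Units.val_one] at h6
  exact h6

theorem p_zero : (p : A p d) = 0 := by
  have h1 : ((p : ℕ) : S p d) = 0 := by
    rw [← map_natCast (MvPolynomial.C (σ := Fin 4 × Fin d × Fin d) (R := ZMod p)) p,
      ZMod.natCast_self, map_zero]
  rw [← map_natCast (Ideal.Quotient.mk (I p d)) p, h1, map_zero]

theorem mem_prime (hF : S_FLD) [Fact p.Prime] {B : Type} [CommRing B] (hB : (p : B) = 0)
    {M : Fin 4 → Matrix (Fin d) (Fin d) B} (h : Rels M) (P : Ideal B) [P.IsPrime] (i j : Fin d) :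
    (com M ^ (d.factorial * p ^ d) - 1) i j ∈ P := by
  let K := AlgebraicClosure (FractionRing (B ⧸ P))
  let φ : B →+* K := (algebraMap (B ⧸ P) K).comp (Ideal.Quotient.mk P)
  have hp : (p : K) = 0 := by
    rw [← map_natCast φ p, hB, map_zero]
  have : CharP K p := ringChar.of_eq (CharP.ringChar_of_prime_eq_zero (Fact.out) hp)
  have h1 := fld hF (rels_map φ h)
  rw [com_map, ← map_pow] at h1
  have h2 : φ.mapMatrix (com M ^ (d.factorial * p ^ d) - 1) = 0 := by
    rw [map_sub, h1, map_one, sub_self]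
  have h3 : φ ((com M ^ (d.factorial * p ^ d) - 1) i j) = 0 :=
    congrFun (congrFun h2 i) j
  have h4 : Function.Injective (algebraMap (B ⧸ P) K) := by
    rw [IsScalarTower.algebraMap_eq (B ⧸ P) (FractionRing (B ⧸ P)) K]
    exact (algebraMap (FractionRing (B ⧸ P)) K).injective.comp
      (IsFractionRing.injective (B ⧸ P) (FractionRing (B ⧸ P)))
  have h5 : Ideal.Quotient.mk P ((com M ^ (d.factorial * p ^ d) - 1) i j) = 0 := by
    apply h4
    rw [map_zero]
    exact h3
  exact Ideal.Quotient.eq_zero_iff_mem.1 h5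

theorem pow_mem {B : Type} [CommRing B] (N : Ideal B) (W : Matrix (Fin d) (Fin d) B)
    (hW : ∀ i j, W i j ∈ N) (k : ℕ) : ∀ i j, (W ^ k) i j ∈ N ^ k := by
  induction k with
  | zero => intro i j; simp
  | succ k ih =>
    intro i j
    have e : (W ^ (k + 1)) i j = ∑ l, (W ^ k) i l * W l j := by
      rw [pow_succ, Matrix.mul_apply]
    rw [e, pow_succ]
    exact Ideal.sum_mem _ fun l _ => Ideal.mul_mem_mul (ih i l) (hW l j)

theorem exp_of (hF : S_FLD) [Fact p.Prime] {B : Type} [CommRing B] [IsNoetherianRing B]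
    (hB : (p : B) = 0) {M : Fin 4 → Matrix (Fin d) (Fin d) B} (h : Rels M) :
    ∃ N : ℕ, 1 ≤ N ∧ com M ^ N = 1 := by
  have hpp : p.Prime := Fact.out
  obtain ⟨ν, hν⟩ := IsNoetherianRing.isNilpotent_nilradical B
  set W := com M ^ (d.factorial * p ^ d) - 1 with hW
  have h1 : ∀ i j, W i j ∈ nilradical B := by
    intro i j
    rw [nilradical_eq_sInf, Ideal.mem_sInf]
    intro P hP
    have : P.IsPrime := hP
    exact mem_prime hF hB h P i j
  have h2 : W ^ ν = 0 := by
    ext i j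
    have h3 := pow_mem _ W h1 ν i j
    rw [hν] at h3
    exact h3
  have h4 : W ^ p ^ ν = 0 := by
    have h5 : ν ≤ p ^ ν := (Nat.lt_pow_self hpp.one_lt).le
    rw [← Nat.sub_add_cancel h5, pow_add, h2, mul_zero]
  obtain ⟨r, hr⟩ := (Commute.one_left W).exists_add_pow_prime_pow_eq hpp ν
  have h6 : ((p : ℕ) : Matrix (Fin d) (Fin d) B) = 0 := by
    rw [← map_natCast (Matrix.scalar (Fin d)) p, hB, map_zero]
  rw [h4, one_pow, h6] at hr
  simp only [zero_mul, add_zero] at hr
  have h7 : 1 + W = com M ^ (d.factorial * p ^ d) := by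
    rw [hW]
    abel
  rw [h7, ← pow_mul] at hr
  refine ⟨d.factorial * p ^ d * p ^ ν, ?_, hr⟩
  have := Nat.factorial_pos d
  have := hpp.pos
  exact Nat.one_le_iff_ne_zero.2 (by positivity)

theorem univ_exp (hF : S_FLD) [Fact p.Prime] : ∃ N : ℕ, 1 ≤ N ∧ com (g p d) ^ N = 1 :=
  exp_of hF p_zero g_rels

end UniX

open UniX in
theorem t_UNI (hF : S_FLD) : S_UNI := by
  intro p _ d
  obtain ⟨N, hN1, hN⟩ := univ_exp (p := p) (d := d) hF
  refine ⟨N, hN1, ?_⟩
  intro R _ _ X Y hX hY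
  let M : Fin 4 → Matrix (Fin d) (Fin d) R := ![X.1, (X⁻¹).1, Y.1, (Y⁻¹).1]
  let φ : UniX.S p d →+* R :=
    MvPolynomial.eval₂Hom (ZMod.castHom (dvd_refl p) R) (fun x => M x.1 x.2.1 x.2.2)
  have hφ : (fun k => φ.mapMatrix (G p d k)) = M := by
    funext k
    ext i j
    change φ (MvPolynomial.X (k, i, j)) = M k i j
    exact MvPolynomial.eval₂Hom_X' _ _ _
  have hcom : com M = (X * Y * X⁻¹ * Y⁻¹ : (Matrix (Fin d) (Fin d) R)ˣ).1 := rfl
  have hM : Rels M := by
    refine ⟨X.mul_inv, X.inv_mul, Y.mul_inv, Y.inv_mul, ?_, ?_⟩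
    · rw [hcom]
      exact congrArg Units.val hX.eq
    · rw [hcom]
      exact congrArg Units.val hY.eq
  have hk : ∀ s ∈ I p d, φ s = 0 := by
    rw [kill_iff, rel_iff, hφ]
    exact hM
  let ψ : A p d →+* R := Ideal.Quotient.lift (I p d) φ hk
  have hψ : (fun k => ψ.mapMatrix (g p d k)) = M := by
    rw [← hφ]
    funext k
    ext i j
    rfl
  have h1 : com M ^ N = 1 := by
    rw [← hψ, com_map, ← map_pow, hN, map_one]
  apply Units.ext
  rw [Units.val_pow_eq_pow_val, ← hcom, h1, Units.val_one]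

end Pool.Agent.N702.CP
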