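import Pool.Agent.N702.CP.Stm2

/-!
# Project CP (helper702), leaf UNP (helper221): elementary matrices act unipotently in dimension less
than `n`
-/

set_option autoImplicit false

namespace Pool.Agent.N702.CP

namespace UNPaux

open Matrix Module

/-! ### Relations -/

section
variable {n : ℕ}

lemma el_row_comm (i a b : Fin n) (ha : i ≠ a) (hb : i ≠ b) (k l : ℤ) :
    el i a ha k * el i b hb l = el i b hb l * el i a ha k := by
  apply Subtype.ext
  change transvection i a k * transvection i b l = transvection i b l * transvection i a k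
  unfold transvection
  have e1 : single i a k * single i b l = 0 := single_mul_single_of_ne _ _ _ _ ha.symm _
  have e2 : single i b l * single i a k = 0 := single_mul_single_of_ne _ _ _ _ hb.symm _
  simp only [mul_add, add_mul, one_mul, mul_one, e1, e2, add_zero]
  abel

lemma el_move (i a b : Fin n) (ha : i ≠ a) (hb : i ≠ b) (hab : a ≠ b) :
    el i a ha 1 * el a b hab 1 = el a b hab 1 * (el i a ha 1 * el i b hb 1) := by
  apply Subtype.ext
  change transvection i a 1 * transvection a b 1 =
    transvection a b 1 * (transvection i a 1 * transvection i b 1)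
  unfold transvection
  have e1 : single i a (1 : ℤ) * single a b 1 = single i b 1 := by
    rw [single_mul_single_same, one_mul]
  have e2 : single a b (1 : ℤ) * single i a 1 = 0 := single_mul_single_of_ne _ _ _ _ hb.symm _
  have e3 : single a b (1 : ℤ) * single i b 1 = 0 := single_mul_single_of_ne _ _ _ _ hb.symm _
  have e4 : single i a (1 : ℤ) * single i b 1 = 0 := single_mul_single_of_ne _ _ _ _ ha.symm _
  simp only [mul_add, add_mul, one_mul, mul_one, e1, e2, e3, e4, add_zero]
  abel

lemma el_comm (i a b l : Fin n) (hl : i ≠ l) (hb : i ≠ b) (hab : a ≠ b) (hla : l ≠ a) :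
    el i l hl 1 * el a b hab 1 = el a b hab 1 * el i l hl 1 := by
  apply Subtype.ext
  change transvection i l 1 * transvection a b 1 = transvection a b 1 * transvection i l 1
  unfold transvection
  have e1 : single i l (1 : ℤ) * single a b 1 = 0 := single_mul_single_of_ne _ _ _ _ hla _
  have e2 : single a b (1 : ℤ) * single i l 1 = 0 := single_mul_single_of_ne _ _ _ _ hb.symm _
  simp only [mul_add, add_mul, one_mul, mul_one, e1, e2, add_zero]
  abel

lemma el_inv_mul (a b : Fin n) (hab : a ≠ b) : el a b hab (-1) * el a b hab 1 = 1 := by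
  apply Subtype.ext
  change transvection a b (-1) * transvection a b 1 = 1
  rw [transvection_mul_transvection_same _ _ hab]
  simp

end

/-! ### Linear algebra -/

section
variable {K V : Type} [Field K] [AddCommGroup V] [Module K V]

/-- generalized eigenvalues of a product of commuting operators -/
lemma prod_eig {A B : Module.End K V} (h : Commute A B) {x y : K} {v : V}
    (hA : v ∈ A.maxGenEigenspace x) (hB : v ∈ B.maxGenEigenspace y) :
    v ∈ (A * B).maxGenEigenspace (x * y) := by
  have hAx : Commute (A - x • 1) B := (h.sub_left ((Commute.one_left B).smul_left x))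
  have hc : Commute ((A - x • 1) * B) (x • (B - y • 1)) := by
    apply Commute.smul_right
    apply Commute.sub_right
    · exact hAx.mul_left (Commute.refl B)
    · exact (Commute.one_right _).smul_right y
  have h1 : v ∈ ((A - x • 1) * B).maxGenEigenspace 0 := by
    rw [End.mem_maxGenEigenspace] at hA ⊢
    obtain ⟨k, hk⟩ := hA
    refine ⟨k, ?_⟩
    rw [zero_smul, sub_zero, hAx.mul_pow, (hAx.pow_pow k k).eq, Module.End.mul_apply, hk, map_zero]
  have h2 : v ∈ (x • (B - y • 1)).maxGenEigenspace 0 := by
    rw [End.mem_maxGenEigenspace] at hB ⊢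
    obtain ⟨k, hk⟩ := hB
    refine ⟨k, ?_⟩
    rw [zero_smul, sub_zero, smul_pow, LinearMap.smul_apply, hk, smul_zero]
  have h3 := End.genEigenspace_inf_le_add _ _ 0 0 ⊤ ⊤ hc ⟨h1, h2⟩
  rw [add_zero] at h3
  have h4 : v ∈ ((A - x • 1) * B + x • (B - y • 1)).maxGenEigenspace 0 := h3
  rw [End.mem_maxGenEigenspace] at h4 ⊢
  obtain ⟨k, hk⟩ := h4
  refine ⟨k, ?_⟩
  have e : (A - x • 1) * B + x • (B - y • 1) - (0 : K) • 1 = A * B - (x * y) • 1 := by
    rw [zero_smul, sub_zero, sub_mul, smul_sub, smul_mul_assoc, one_mul, smul_smul]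
    abel
  rw [e] at hk
  exact hk

/-- few characters -/
lemma card_le {ι : Type} [FiniteDimensional K V] (E : (ι → K) → Submodule K V) (hE : iSupIndep E)
    (T : Finset (ι → K)) (hT : ∀ χ ∈ T, E χ ≠ ⊥) : T.card ≤ finrank K V := by
  have h1 : iSupIndep (fun χ : T => E χ.1) := hE.comp Subtype.val_injective
  have h2 : ∀ χ : T, ∃ v ∈ E χ.1, v ≠ 0 := fun χ =>
    Submodule.exists_mem_ne_zero_of_ne_bot (hT χ.1 χ.2)
  choose v hv hv0 using h2
  have h3 : LinearIndependent K v := h1.linearIndependent _ hv hv0
  simpa using h3.fintype_card_le_finrank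

/-- conjugation of powers -/
lemma conj_pow {X Y g : Module.End K V} (h : X * g = g * Y) (k : ℕ) : X ^ k * g = g * Y ^ k := by
  induction k with
  | zero => simp
  | succ k ih => rw [pow_succ, mul_assoc, h, ← mul_assoc, ih, mul_assoc, ← pow_succ]

lemma conj_eig {X Y g : Module.End K V} (h : X * g = g * Y) {x : K} {v : V}
    (hv : v ∈ Y.maxGenEigenspace x) : g v ∈ X.maxGenEigenspace x := by
  rw [End.mem_maxGenEigenspace] at hv ⊢
  obtain ⟨k, hk⟩ := hv
  refine ⟨k, ?_⟩
  have h1 : (X - x • 1) * g = g * (Y - x • 1) := by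
    rw [sub_mul, mul_sub, h]
    simp
  have h2 := conj_pow h1 k
  have h3 : ((X - x • 1) ^ k) (g v) = ((X - x • 1) ^ k * g) v := rfl
  rw [h3, h2, Module.End.mul_apply, hk, map_zero]

end

end UNPaux

open UNPaux Module in
theorem t_UNP : S_UNP := by
  classical
  intro n hn K _ _ V _ _ _ hV ρ i j hij
  let ι := {l : Fin n // l ≠ i}
  let F : ι → Module.End K V := fun l => ρ (el i l.1 (Ne.symm l.2) 1)
  let E : (ι → K) → Submodule K V := fun χ => ⨅ l, (F l).maxGenEigenspace (χ l)
  have hcomm : ∀ a b : ι, Commute (F a) (F b) := by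
    intro a b
    change ρ _ * ρ _ = ρ _ * ρ _
    rw [← map_mul, ← map_mul, el_row_comm]
  have hind : iSupIndep E :=
    Module.End.independent_iInf_maxGenEigenspace_of_forall_mapsTo F fun a b φ =>
      Module.End.mapsTo_maxGenEigenspace_of_comm (hcomm b a) φ
  have htop : ⨆ χ, E χ = ⊤ :=
    Module.End.iSup_iInf_maxGenEigenspace_eq_top_of_iSup_maxGenEigenspace_eq_top_of_commute F
      (fun a b _ => hcomm a b) fun a => Module.End.iSup_maxGenEigenspace_eq_top (F a)
  have hinj : ∀ (a b : Fin n) (h : a ≠ b) (v : V), ρ (el a b h 1) v = 0 → v = 0 := by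
    intro a b h v hv
    have h1 : (ρ (el a b h (-1)) * ρ (el a b h 1)) v = v := by
      rw [← map_mul, el_inv_mul, map_one]
      rfl
    rw [Module.End.mul_apply, hv, map_zero] at h1
    exact h1.symm
  -- the values are not zero
  have hne : ∀ χ, E χ ≠ ⊥ → ∀ l, χ l ≠ 0 := by
    intro χ hχ l h0
    obtain ⟨v, hv, hv0⟩ := Submodule.exists_mem_ne_zero_of_ne_bot hχ
    have h1 : v ∈ (F l).maxGenEigenspace (χ l) := (Submodule.mem_iInf _).1 hv l
    rw [h0, Module.End.mem_maxGenEigenspace] at h1
    obtain ⟨k, hk⟩ := h1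
    rw [zero_smul, sub_zero] at hk
    have h2 : ∀ (m : ℕ) (w : V), ((F l) ^ m) w = 0 → w = 0 := by
      intro m
      induction m with
      | zero => intro w hw; simpa using hw
      | succ m ih =>
        intro w hw
        rw [pow_succ, Module.End.mul_apply] at hw
        exact hinj _ _ _ _ (ih _ hw)
    exact hv0 (h2 k v hk)
  -- the moves
  have hmove : ∀ (a b : ι), a ≠ b → ∀ χ, E χ ≠ ⊥ → E (Function.update χ a (χ a * χ b)) ≠ ⊥ := by
    intro a b hab χ hχ
    have hab' : a.1 ≠ b.1 := fun h => hab (Subtype.ext h)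
    obtain ⟨v, hv, hv0⟩ := Submodule.exists_mem_ne_zero_of_ne_bot hχ
    have hvl : ∀ l, v ∈ (F l).maxGenEigenspace (χ l) := (Submodule.mem_iInf _).1 hv
    have hmem : ρ (el a.1 b.1 hab' 1) v ∈ E (Function.update χ a (χ a * χ b)) := by
      refine (Submodule.mem_iInf _).2 fun l => ?_
      by_cases hl : l = a
      · subst hl
        rw [Function.update_self]
        refine conj_eig (Y := F l * F b) ?_ (prod_eig (hcomm l b) (hvl l) (hvl b))
        change ρ _ * ρ _ = ρ _ * (ρ _ * ρ _)
        rw [← map_mul, ← map_mul, ← map_mul, el_move]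
      · rw [Function.update_of_ne hl]
        refine conj_eig (Y := F l) ?_ (hvl l)
        change ρ _ * ρ _ = ρ _ * ρ _
        rw [← map_mul, ← map_mul, el_comm _ _ _ _ _ (Ne.symm b.2) _
          (fun h => hl (Subtype.ext h))]
    intro hbot
    rw [hbot, Submodule.mem_bot] at hmem
    exact hv0 (hinj _ _ _ _ hmem)
  -- the proof
  by_contra hnil
  let l0 : ι := ⟨j, hij.symm⟩
  obtain ⟨χ, hχ, hx⟩ : ∃ χ, E χ ≠ ⊥ ∧ χ l0 ≠ 1 := by
    by_contra hcon
    push Not at hcon
    apply hnil
    have h1 : (⊤ : Submodule K V) ≤ (F l0).maxGenEigenspace 1 := by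
      rw [← htop]
      refine iSup_le fun χ => ?_
      by_cases hχ : E χ = ⊥
      · rw [hχ]; exact bot_le
      · rw [← hcon χ hχ]
        exact iInf_le _ l0
    rw [Module.End.maxGenEigenspace_eq_genEigenspace_finrank] at h1
    refine ⟨finrank K V, ?_⟩
    ext v
    have h2 := h1 (Submodule.mem_top : v ∈ ⊤)
    rw [Module.End.mem_genEigenspace_nat, LinearMap.mem_ker, one_smul] at h2
    exact h2
  set x := χ l0 with hxdef
  have hx0 : x ≠ 0 := hne χ hχ l0
  have hcard : Fintype.card ι = n - 1 := by
    change Fintype.card {l : Fin n // l ≠ i} = n - 1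
    simp
  obtain ⟨b, hb⟩ : ∃ b : ι, b ≠ l0 := Fintype.exists_ne_of_one_lt_card (by omega) l0
  -- a character with another value at `l0`
  obtain ⟨χ2, hχ2, hχ2x⟩ : ∃ χ2, E χ2 ≠ ⊥ ∧ χ2 l0 ≠ x := by
    by_cases hy : χ b = 1
    · have h1 := hmove b l0 hb χ hχ
      set χ1 := Function.update χ b (χ b * χ l0) with hχ1
      have h2 := hmove l0 b (Ne.symm hb) χ1 h1
      refine ⟨_, h2, ?_⟩
      rw [Function.update_self, hχ1, Function.update_self, Function.update_of_ne (Ne.symm hb), hy,
        one_mul, ← hxdef]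
      intro h
      exact hx (mul_left_cancel₀ hx0 (by rw [h, mul_one]))
    · have h2 := hmove l0 b (Ne.symm hb) χ hχ
      refine ⟨_, h2, ?_⟩
      rw [Function.update_self, ← hxdef]
      intro h
      exact hy (mul_left_cancel₀ hx0 (by rw [h, mul_one]))
  -- the characters
  let f : ι → (ι → K) := fun a => Function.update χ a (χ a * x)
  have hf0 : ∀ a ∈ Finset.univ.erase l0, f a l0 = x := by
    intro a ha
    exact Function.update_of_ne (Ne.symm (Finset.ne_of_mem_erase ha)) _ _
  have hfa : ∀ a, f a a ≠ χ a := by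
    intro a h
    have h1 : χ a * x = χ a := by
      have : f a a = χ a * x := Function.update_self _ _ _
      rw [← this]
      exact h
    exact hx (mul_left_cancel₀ (hne χ hχ a) (by rw [h1, mul_one]))
  let T1 : Finset (ι → K) := (Finset.univ.erase l0).image f
  have hT1 : T1.card = n - 2 := by
    rw [Finset.card_image_of_injOn, Finset.card_erase_of_mem (Finset.mem_univ _),
      Finset.card_univ, hcard]
    · omega
    · intro a _ b _ hab
      by_contra hne'
      have h1 : f a a = f b a := congrFun hab a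
      have h2 : f b a = χ a := Function.update_of_ne hne' _ _
      exact hfa a (h1.trans h2)
  have hχT : χ ∉ T1 := by
    intro h
    obtain ⟨a, _, ha⟩ := Finset.mem_image.1 h
    exact hfa a (congrFun ha a)
  have hχ2T : χ2 ∉ insert χ T1 := by
    intro h
    rcases Finset.mem_insert.1 h with h | h
    · exact hχ2x (congrFun h l0)
    · obtain ⟨a, ha, ha2⟩ := Finset.mem_image.1 h
      exact hχ2x ((congrFun ha2 l0).symm.trans (hf0 a ha))
  have hT : (insert χ2 (insert χ T1)).card = n := by
    rw [Finset.card_insert_of_notMem hχ2T, Finset.card_insert_of_notMem hχT, hT1]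
    omega
  have hall : ∀ ψ ∈ insert χ2 (insert χ T1), E ψ ≠ ⊥ := by
    intro ψ hψ
    rcases Finset.mem_insert.1 hψ with h | h
    · rw [h]; exact hχ2
    rcases Finset.mem_insert.1 h with h | h
    · rw [h]; exact hχ
    obtain ⟨a, ha, ha2⟩ := Finset.mem_image.1 h
    rw [← ha2]
    exact hmove a l0 (Finset.ne_of_mem_erase ha) χ hχ
  have := card_le E hind _ hall
  omega

end Pool.Agent.N702.CP
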